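import Mathlib

/-!
# Odd elements of rational group algebras without nilpotents: idempotents and two-sided ideals
-/

set_option autoImplicit false

namespace Pool.Agent.H65.CM

open Finset MonoidAlgebra

noncomputable section

variable {G : Type} [Group G] [Fintype G]

/-- The element `x` of the group algebra is odd: `c x = - x`. -/
def OddEl (c : G) (x : MonoidAlgebra ℚ G) : Prop := single c 1 * x = -x

/-- The element `x` of the group algebra is invariant under right multiplication by `N`. -/
def InvEl (N : Subgroup G) (x : MonoidAlgebra ℚ G) : Prop := ∀ n ∈ N, x * single n 1 = x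

/-- There are no nilpotents among the odd elements that are invariant under `N`. -/
def RedMod (c : G) (N : Subgroup G) : Prop :=
  ∀ x : MonoidAlgebra ℚ G, OddEl c x → InvEl N x → x * x = 0 → x = 0

omit [Fintype G] in
theorem RedMod.mono {c : G} {N N' : Subgroup G} (h : RedMod c N) (hN : N ≤ N') : RedMod c N' :=
  fun x hx hx' => h x hx fun n hn => hx' n (hN hn)

theorem eq_sum (x : MonoidAlgebra ℚ G) : x = ∑ g, x.coeff g • single g (1 : ℚ) := by
  ext h
  rw [coeff_sum, Finsupp.finsetSum_apply, Finset.sum_eq_single h]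
  · simp
  · intro g _ hg
    simp [hg]
  · intro h'
    exact absurd (Finset.mem_univ _) h'

theorem coeff_mul_sum (x y : MonoidAlgebra ℚ G) (g : G) :
    (x * y).coeff g = ∑ u, x.coeff (g * u⁻¹) * y.coeff u := by
  rw [coeff_mul_apply_right, Finsupp.sum_fintype]
  intro i
  rw [mul_zero]

theorem commute_of_single {z : MonoidAlgebra ℚ G}
    (h : ∀ g : G, single g 1 * z = z * single g 1) (x : MonoidAlgebra ℚ G) : x * z = z * x := by
  rw [eq_sum x, Finset.sum_mul, Finset.mul_sum]
  refine Finset.sum_congr rfl fun g _ => ?_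
  rw [smul_mul_assoc, h, mul_smul_comm]

open Classical in
/-- The sum of the elements of a subgroup. -/
def SS (N : Subgroup G) : MonoidAlgebra ℚ G := ∑ g : G, if g ∈ N then single g 1 else 0

theorem coeff_SS (N : Subgroup G) (g : G) [Decidable (g ∈ N)] :
    (SS N).coeff g = if g ∈ N then 1 else 0 := by
  classical
  unfold SS
  rw [coeff_sum, Finsupp.finsetSum_apply, Finset.sum_eq_single g]
  · split_ifs <;> simp
  · intro h _ hg
    split_ifs
    · simp [hg]
    · simp
  · intro h'
    exact absurd (Finset.mem_univ _) h'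

theorem SS_mul_single {N : Subgroup G} {n : G} (hn : n ∈ N) : SS N * single n 1 = SS N := by
  classical
  ext g
  rw [coeff_mul_single_apply, mul_one, coeff_SS, coeff_SS]
  have : g * n⁻¹ ∈ N ↔ g ∈ N := Subgroup.mul_mem_cancel_right N (N.inv_mem hn)
  simp only [this]

theorem single_mul_SS {N : Subgroup G} {n : G} (hn : n ∈ N) : single n 1 * SS N = SS N := by
  classical
  ext g
  rw [coeff_single_mul_apply, one_mul, coeff_SS, coeff_SS]
  have : n⁻¹ * g ∈ N ↔ g ∈ N := Subgroup.mul_mem_cancel_left N (N.inv_mem hn)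
  simp only [this]

theorem SS_comm {N : Subgroup G} (hN : N.Normal) (x : MonoidAlgebra ℚ G) :
    x * SS N = SS N * x := by
  classical
  refine commute_of_single (fun g => ?_) x
  ext h
  rw [coeff_single_mul_apply, one_mul, coeff_mul_single_apply, mul_one, coeff_SS, coeff_SS]
  have : g⁻¹ * h ∈ N ↔ h * g⁻¹ ∈ N := hN.mem_comm_iff
  simp only [this]

theorem mul_SS_coeff (x : MonoidAlgebra ℚ G) (N : Subgroup G) (g : G) [DecidablePred (· ∈ N)] :
    (x * SS N).coeff g = ∑ u : G, if u ∈ N then x.coeff (g * u) else 0 := by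
  rw [coeff_mul_sum]
  refine Fintype.sum_equiv (Equiv.inv G) _ _ fun u => ?_
  rw [coeff_SS, Equiv.inv_apply]
  have : u⁻¹ ∈ N ↔ u ∈ N := inv_mem_iff
  simp only [this]
  split_ifs <;> simp

theorem InvEl.mul_SS {N : Subgroup G} {x : MonoidAlgebra ℚ G} (h : InvEl N x) :
    x * SS N = (Nat.card N : ℚ) • x := by
  classical
  unfold SS
  rw [Finset.mul_sum]
  have h1 : ∀ g : G, x * (if g ∈ N then single g (1 : ℚ) else 0) = if g ∈ N then x else 0 := by
    intro g
    split_ifs with hg
    · exact h g hg
    · rw [mul_zero]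
  rw [Finset.sum_congr rfl fun g _ => h1 g, ← Finset.sum_filter, Finset.sum_const,
    ← Nat.cast_smul_eq_nsmul ℚ]
  congr 2
  rw [Nat.card_eq_fintype_card, Fintype.card_subtype]

theorem card_ne (N : Subgroup G) : (Nat.card N : ℚ) ≠ 0 := by
  have := Nat.card_pos (α := N)
  exact_mod_cast this.ne'

theorem inv_mul_SS {N : Subgroup G} (x : MonoidAlgebra ℚ G) : InvEl N (x * SS N) := by
  intro n hn
  rw [mul_assoc, SS_mul_single hn]

theorem SS_mul_SS (N : Subgroup G) : SS N * SS N = (Nat.card N : ℚ) • SS N := by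
  have h : InvEl N (SS N) := fun n hn => SS_mul_single hn
  exact h.mul_SS

omit [Fintype G] in
theorem InvEl.coeff {N : Subgroup G} {x : MonoidAlgebra ℚ G} (h : InvEl N x) {n : G} (hn : n ∈ N)
    (g : G) : x.coeff (g * n) = x.coeff g := by
  have h1 := congrArg (fun z : MonoidAlgebra ℚ G => z.coeff (g * n)) (h n hn)
  simp only [coeff_mul_single_apply, mul_inv_cancel_right, mul_one] at h1
  exact h1.symm

omit [Fintype G] in
theorem inv_of_coeff {N : Subgroup G} {x : MonoidAlgebra ℚ G}
    (h : ∀ n ∈ N, ∀ g, x.coeff (g * n) = x.coeff g) : InvEl N x := by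
  intro n hn
  ext g
  rw [coeff_mul_single_apply, mul_one]
  exact h _ (N.inv_mem hn) g

omit [Fintype G] in
theorem OddEl.coeff {c : G} {x : MonoidAlgebra ℚ G} (h : OddEl c x) (g : G) :
    x.coeff (c * g) = - x.coeff g := by
  have h1 := congrArg (fun z : MonoidAlgebra ℚ G => z.coeff (c * g)) h
  simp only [coeff_single_mul_apply, inv_mul_cancel_left, one_mul] at h1
  have h2 : (-x).coeff (c * g) = - x.coeff (c * g) := rfl
  rw [h2] at h1
  linarith

omit [Fintype G] in
theorem odd_of_coeff {c : G} (hc : c * c = 1) {x : MonoidAlgebra ℚ G}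
    (h : ∀ g, x.coeff (c * g) = - x.coeff g) : OddEl c x := by
  have hc' : c⁻¹ = c := inv_eq_of_mul_eq_one_left hc
  unfold OddEl
  ext g
  rw [coeff_single_mul_apply, one_mul, hc', h]
  rfl

omit [Fintype G] in
theorem OddEl.mul_right {c : G} {x : MonoidAlgebra ℚ G} (h : OddEl c x) (y : MonoidAlgebra ℚ G) :
    OddEl c (x * y) := by
  unfold OddEl at *
  rw [← mul_assoc, h, neg_mul]

theorem OddEl.mul_left {c : G} (hc : ∀ g, c * g = g * c) {x : MonoidAlgebra ℚ G}
    (h : OddEl c x) (y : MonoidAlgebra ℚ G) : OddEl c (y * x) := by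
  unfold OddEl at *
  have h1 : y * single c 1 = single c 1 * y := by
    refine commute_of_single (fun g => ?_) y
    rw [single_mul_single, single_mul_single, hc]
  rw [← mul_assoc, ← h1, mul_assoc, h, mul_neg]

omit [Fintype G] in
theorem OddEl.sub {c : G} {x y : MonoidAlgebra ℚ G} (h : OddEl c x) (h' : OddEl c y) :
    OddEl c (x - y) := by
  unfold OddEl at *
  rw [mul_sub, h, h']
  abel

omit [Fintype G] in
theorem OddEl.smul {c : G} {x : MonoidAlgebra ℚ G} (h : OddEl c x) (r : ℚ) :
    OddEl c (r • x) := by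
  unfold OddEl at *
  rw [mul_smul_comm, h, smul_neg]

omit [Fintype G] in
theorem InvEl.sub {N : Subgroup G} {x y : MonoidAlgebra ℚ G} (h : InvEl N x) (h' : InvEl N y) :
    InvEl N (x - y) := by
  intro n hn
  rw [sub_mul, h n hn, h' n hn]

omit [Fintype G] in
theorem InvEl.smul {N : Subgroup G} {x : MonoidAlgebra ℚ G} (h : InvEl N x) (r : ℚ) :
    InvEl N (r • x) := by
  intro n hn
  rw [smul_mul_assoc, h n hn]

omit [Fintype G] in
theorem InvEl.mul_left {N : Subgroup G} {x : MonoidAlgebra ℚ G} (h : InvEl N x)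
    (y : MonoidAlgebra ℚ G) : InvEl N (y * x) := by
  intro n hn
  rw [mul_assoc, h n hn]

theorem InvEl.mul_right {N : Subgroup G} (hN : N.Normal) {x : MonoidAlgebra ℚ G} (h : InvEl N x)
    (y : MonoidAlgebra ℚ G) : InvEl N (x * y) := by
  have h1 : x * y = (Nat.card N : ℚ)⁻¹ • ((x * y) * SS N) := by
    rw [mul_assoc, SS_comm hN, ← mul_assoc, h.mul_SS, smul_mul_assoc, smul_smul,
      inv_mul_cancel₀ (card_ne N), one_smul]
  rw [h1]
  exact (inv_mul_SS _).smul _

variable {c : G} {N : Subgroup G}

/-- Odd idempotents are central. -/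
theorem central_of_idem (hc : ∀ g, c * g = g * c) (hN : N.Normal) (hred : RedMod c N)
    {e : MonoidAlgebra ℚ G} (ho : OddEl c e) (hi : InvEl N e) (he : e * e = e)
    (x : MonoidAlgebra ℚ G) : e * x = x * e := by
  have h1 : e * x - e * x * e = 0 := by
    refine hred _ ((ho.mul_right x).sub ((ho.mul_right x).mul_right e))
      ((hi.mul_right hN x).sub (hi.mul_left _)) ?_
    have : (e * x - e * x * e) * (e * x - e * x * e) =
        e * x * (e * x) - e * x * (e * e) * x - e * x * (e * x) * e + e * x * (e * e) * x * e := by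
      noncomm_ring
    rw [this, he]
    noncomm_ring
  have h2 : x * e - e * x * e = 0 := by
    refine hred _ ((ho.mul_left hc x).sub ((ho.mul_right x).mul_right e))
      ((hi.mul_left x).sub (hi.mul_left _)) ?_
    have : (x * e - e * x * e) * (x * e - e * x * e) =
        x * e * x * e - x * (e * e) * x * e - e * x * e * x * e + e * x * (e * e) * x * e := by
      noncomm_ring
    rw [this, he]
    noncomm_ring
  rw [sub_eq_zero.1 h1, sub_eq_zero.1 h2]

/-- The right ideal of an odd element is generated by an idempotent. -/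
theorem exists_idem (hc : ∀ g, c * g = g * c) (hN : N.Normal) (hred : RedMod c N)
    {b : MonoidAlgebra ℚ G} (ho : OddEl c b) (hi : InvEl N b) :
    ∃ y : MonoidAlgebra ℚ G, (b * y) * (b * y) = b * y ∧ b * y * b = b := by
  let W : Submodule ℚ (MonoidAlgebra ℚ G) := LinearMap.range (LinearMap.mulLeft ℚ b)
  let F0 : (G → ℚ) →ₗ[ℚ] MonoidAlgebra ℚ G :=
    { toFun := fun f => ∑ g, f g • single g (1 : ℚ)
      map_add' := fun f f' => by
        simp only [Pi.add_apply, add_smul, Finset.sum_add_distrib]
      map_smul' := fun r f => by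
        simp only [Pi.smul_apply, smul_eq_mul, mul_smul, Finset.smul_sum, RingHom.id_apply] }
  have hfin : Module.Finite ℚ (MonoidAlgebra ℚ G) :=
    Module.Finite.of_surjective F0 fun x => ⟨x.coeff, (eq_sum x).symm⟩
  have hWmem : ∀ y, b * y ∈ W := fun y => ⟨y, rfl⟩
  let T : W →ₗ[ℚ] W := (LinearMap.mulLeft ℚ b).restrict fun w _ => hWmem w
  have hinj : Function.Injective T := by
    rw [← LinearMap.ker_eq_bot, LinearMap.ker_eq_bot']
    rintro ⟨w, y, rfl⟩ hw
    have h1 : b * (b * y) = 0 := congrArg Subtype.val hw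
    have h2 : b * y * b = 0 := by
      refine hred _ ((ho.mul_right y).mul_right b) (hi.mul_left _) ?_
      have : b * y * b * (b * y * b) = b * y * (b * (b * y)) * b := by noncomm_ring
      rw [this, h1]
      simp
    have h3 : b * y = 0 := by
      refine hred _ (ho.mul_right y) (hi.mul_right hN y) ?_
      rw [← mul_assoc, h2, zero_mul]
    exact Subtype.ext h3
  have hsurj := LinearMap.injective_iff_surjective.1 hinj
  obtain ⟨⟨w, y, hy⟩, hw⟩ := hsurj ⟨b, ⟨1, mul_one b⟩⟩
  have h1 : b * w = b := congrArg Subtype.val hw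
  have hy' : b * y = w := hy
  rw [← hy'] at h1
  have h2 : b - b * y * b = 0 := by
    refine hred _ (ho.sub ((ho.mul_right y).mul_right b)) (hi.sub (hi.mul_left _)) ?_
    have : (b - b * y * b) * (b - b * y * b) =
        b * b - b * (b * y) * b - b * y * (b * b) + b * y * (b * (b * y)) * b := by noncomm_ring
    rw [this, h1]
    noncomm_ring
  have h3 : b * y * b = b := (sub_eq_zero.1 h2).symm
  refine ⟨y, ?_, h3⟩
  rw [← mul_assoc, h3]

/-- The right ideal of an odd element is a two-sided ideal. -/
theorem two_sided (hc : ∀ g, c * g = g * c) (hN : N.Normal) (hred : RedMod c N)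
    {b : MonoidAlgebra ℚ G} (ho : OddEl c b) (hi : InvEl N b) (x y : MonoidAlgebra ℚ G) :
    ∃ z, x * (b * y) = b * z := by
  obtain ⟨y0, he, hb⟩ := exists_idem hc hN hred ho hi
  have hcen := central_of_idem hc hN hred (ho.mul_right y0) (hi.mul_right hN y0) he
  refine ⟨y0 * (x * (b * y)), ?_⟩
  calc x * (b * y) = x * ((b * y0) * b * y) := by rw [hb]
    _ = (x * (b * y0)) * (b * y) := by noncomm_ring
    _ = (b * y0) * x * (b * y) := by rw [← hcen]
    _ = b * (y0 * (x * (b * y))) := by noncomm_ring

/-- Subgroups that do not contain `c` are normal. -/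
theorem normal_of_not_mem (hc : ∀ g, c * g = g * c) (hcc : c * c = 1) (hN : N.Normal)
    (hred : RedMod c N) {H : Subgroup G} (hH : N ≤ H) (hcH : c ∉ H) : H.Normal := by
  classical
  have hc' : c⁻¹ = c := inv_eq_of_mul_eq_one_left hcc
  have hcard := card_ne H
  set S : MonoidAlgebra ℚ G := SS H - single c 1 * SS H with hS
  have hcomm : ∀ x : MonoidAlgebra ℚ G, x * single c 1 = single c 1 * x := by
    intro x
    refine commute_of_single (fun g => ?_) x
    rw [single_mul_single, single_mul_single, hc]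
  have hcc' : (single c 1 : MonoidAlgebra ℚ G) * single c 1 = 1 := by
    rw [single_mul_single, hcc, mul_one]
    rfl
  have hSodd : OddEl c S := by
    unfold OddEl
    rw [hS, mul_sub, ← mul_assoc, hcc', one_mul]
    abel
  have hSinv : InvEl N S := by
    intro n hn
    rw [hS, sub_mul, mul_assoc, SS_mul_single (hH hn)]
  have hSS : S * S = (2 * (Nat.card H : ℚ)) • S := by
    have h1 : S * S = SS H * SS H - SS H * single c 1 * SS H - single c 1 * (SS H * SS H) +
        single c 1 * (SS H * single c 1) * SS H := by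
      rw [hS]
      noncomm_ring
    rw [h1, hcomm (SS H), SS_mul_SS, mul_assoc (single c 1) (SS H) (SS H), SS_mul_SS,
      ← mul_assoc (single c 1) (single c 1) (SS H), hcc', one_mul, SS_mul_SS, hS, smul_sub,
      mul_smul_comm]
    module
  have he := central_of_idem hc hN hred (hSodd.smul (2 * (Nat.card H : ℚ))⁻¹)
    (hSinv.smul (2 * (Nat.card H : ℚ))⁻¹) (by
      rw [smul_mul_assoc, mul_smul_comm, hSS, smul_smul, smul_smul]
      congr 1
      field_simp)
  refine ⟨fun h hh g => ?_⟩
  have h1 := he (single g 1)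
  rw [smul_mul_assoc, mul_smul_comm] at h1
  have h2 : S * single g 1 = single g 1 * S := by
    have h3 : (2 * (Nat.card H : ℚ)) ≠ 0 := mul_ne_zero two_ne_zero hcard
    have h4 := congrArg (fun z => (2 * (Nat.card H : ℚ)) • z) h1
    simp only [smul_smul, mul_inv_cancel₀ h3, one_smul] at h4
    exact h4
  have h3 := congrArg (fun z : MonoidAlgebra ℚ G => z.coeff (g * h)) h2
  simp only [coeff_mul_single_apply, coeff_single_mul_apply, inv_mul_cancel_left, mul_one,
    one_mul] at h3
  have hcoef : ∀ k, S.coeff k = (if k ∈ H then 1 else 0) - (if c * k ∈ H then 1 else 0) := by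
    intro k
    have h5 : S.coeff k = (SS H).coeff k - (single c 1 * SS H).coeff k := by
      rw [hS]
      rfl
    rw [h5, coeff_single_mul_apply, one_mul, coeff_SS, coeff_SS, hc']
  rw [hcoef, hcoef, if_pos hh, if_neg (fun h6 => hcH ((Subgroup.mul_mem_cancel_right H hh).1 h6)),
    sub_zero] at h3
  by_contra h7
  rw [if_neg h7] at h3
  split_ifs at h3 <;> norm_num at h3

end

end Pool.Agent.H65.CM
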