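import Pool.Graph.R_seed8.TH127.PG.Defs

/-!
# Families of CM types: CM subfields with reduced odd rational group algebras
-/

set_option autoImplicit false

namespace Pool.Agent.H65.CM

open NumberField Module Pool.Agent.H204R3.CM Pool.Agent.W547.KB Pool.Agent.W537.PC
  Pool.Agent.W527.Short Pool.Agent.W527.Struct Pool.Agent.W527.Per Pool.Agent.TH127.SC
  Pool.Agent.TH127.PG

/-- The number field `F` is Galois over `ℚ`, and the rational group algebra of its Galois group has
no nonzero elements `x` with `c x = - x`, `x ^ 2 = 0`, where `c` is the complex conjugation. -/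
def OddReduced (F : Type) [Field F] [NumberField F] : Prop :=
  IsGalois ℚ F ∧ ∀ c : F ≃ₐ[ℚ] F,
    (∀ φ : F →+* ℂ, φ.comp (c : F →+* F) = ComplexEmbedding.conjugate φ) →
      ∀ x : MonoidAlgebra ℚ (F ≃ₐ[ℚ] F), MonoidAlgebra.single c 1 * x = -x → x * x = 0 → x = 0

/-- The number field `F` is Galois over `ℚ`, and its Galois group has an abelian subgroup `B` such
that the squares of all elements outside `B` are equal to the complex conjugation. -/
def DicyclicType (F : Type) [Field F] [NumberField F] : Prop :=
  IsGalois ℚ F ∧ ∃ B : Subgroup (F ≃ₐ[ℚ] F), (∀ a ∈ B, ∀ b ∈ B, a * b = b * a) ∧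
    ∀ g, g ∉ B → ∀ φ : F →+* ℂ,
      φ.comp ((g * g : F ≃ₐ[ℚ] F) : F →+* F) = ComplexEmbedding.conjugate φ

/-- Every separated family of CM subfields `T i` of the `E i`, `i ∈ S ≠ ∅`, consists of Galois
extensions of the field of rational numbers with reduced odd rational group algebra, or is mild, or
has an embedding whose class is good. -/
def ReducedMildOrGood {ι : Type} (A : ι → CMPair) : Prop :=
  ∀ (T : ∀ i, IntermediateField ℚ (A i).E) (S : Finset ι), S.Nonempty →
    (∀ i ∈ S, IsCM (T i)) → SeparatedFamily A T S →
      (∀ i ∈ S, OddReduced (T i)) ∨ MildFamily A T S ∨ ∃ x : Embs (fun i : S => T i), Good x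

/-- The CM subfield `T` of `E` is a Galois extension of the field of rational numbers with reduced
odd rational group algebra, or the absolute value of the excess is the same at all embeddings of `T`,
or `T` has no smaller CM subfield and the absolute values of the nonzero excesses at the embeddings
of `T` are equal. -/
def SimpleR (A : CMPair) (T : IntermediateField ℚ A.E) : Prop :=
  OddReduced T ∨ (∀ ψ ψ' : Emb T, |excess A.Φ T ψ| = |excess A.Φ T ψ'|) ∨
  ((∀ F ≤ T, IsCM F → F = T) ∧ ∀ ψ ψ' : Emb T, excess A.Φ T ψ ≠ 0 → excess A.Φ T ψ' ≠ 0 →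
    |excess A.Φ T ψ| = |excess A.Φ T ψ'|)

/-- All CM subfields of the `E i` have the property `SimpleR`, and isomorphic CM subfields of
different `E i` are Galois extensions of the field of rational numbers with reduced odd rational
group algebra. -/
def SimpleSubfieldsR {ι : Type} (A : ι → CMPair) : Prop :=
  (∀ (i : ι) (T : IntermediateField ℚ (A i).E), IsCM T → SimpleR (A i) T) ∧
  ∀ (i i' : ι) (T : IntermediateField ℚ (A i).E) (T' : IntermediateField ℚ (A i').E), i ≠ i' →
    IsCM T → IsCM T' → Isomorphic T T' → OddReduced T

end Pool.Agent.H65.CM
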