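import Pool.Agent.H65.CM.Alg

/-!
# Odd parts of rational group algebras without nilpotents: quotients
-/

set_option autoImplicit false

namespace Pool.Agent.H65.CM

open Finset MonoidAlgebra

noncomputable section

/-- The rational group algebra of `G` has no nilpotent elements `x` with `c x = - x`. -/
def RedGrp {G : Type} [Group G] (c : G) : Prop :=
  ∀ x : MonoidAlgebra ℚ G, single c 1 * x = -x → x * x = 0 → x = 0

variable {G Q : Type} [Group G] [Fintype G] [Group Q] [Fintype Q]

theorem coeff_of_sum (F : G → ℚ) (g : G) :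
    (∑ g, F g • single g (1 : ℚ) : MonoidAlgebra ℚ G).coeff g = F g := by
  classical
  rw [coeff_sum, Finsupp.finsetSum_apply, Finset.sum_eq_single g]
  · simp
  · intro g' _ hg
    simp [hg]
  · intro h'
    exact absurd (Finset.mem_univ _) h'

omit [Fintype G] [Fintype Q] in
theorem coeff_pi [Fintype G] [DecidableEq Q] (ρ : G →* Q) (x : MonoidAlgebra ℚ G) (q : Q) :
    (mapDomainRingHom ℚ ρ x).coeff q = ∑ g, if ρ g = q then x.coeff g else 0 := by
  classical
  conv_lhs => rw [eq_sum x]
  rw [map_sum, coeff_sum, Finsupp.finsetSum_apply]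
  refine Finset.sum_congr rfl fun g _ => ?_
  rw [smul_single, smul_eq_mul, mul_one]
  change (mapDomain ρ (single g (x.coeff g))).coeff q = _
  rw [mapDomain_single, coeff_single, Finsupp.single_apply]

omit [Fintype Q] in
theorem redMod_of_hom (ρ : G →* Q) (c : G) (h : RedGrp (ρ c)) : RedMod c ρ.ker := by
  classical
  intro x ho hi hx
  have h1 : mapDomainRingHom ℚ ρ x = 0 := by
    apply h
    · have h2 : (single (ρ c) 1 : MonoidAlgebra ℚ Q) = mapDomainRingHom ℚ ρ (single c 1) := by
        change _ = mapDomain ρ (single c 1)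
        rw [mapDomain_single]
      have ho' : single c 1 * x = -x := ho
      rw [h2, ← map_mul, ho', map_neg]
    · rw [← map_mul, hx, map_zero]
  ext g
  have h2 : (mapDomainRingHom ℚ ρ x).coeff (ρ g) = 0 := by
    rw [h1]
    rfl
  rw [coeff_pi] at h2
  have h3 : (∑ g', if ρ g' = ρ g then x.coeff g' else 0) =
      ∑ g', if ρ g' = ρ g then x.coeff g else 0 := by
    refine Finset.sum_congr rfl fun g' _ => ?_
    split_ifs with hg
    · have hk : g⁻¹ * g' ∈ ρ.ker := by
        rw [MonoidHom.mem_ker, map_mul, map_inv, hg, inv_mul_cancel]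
      have := hi.coeff hk g
      rwa [mul_inv_cancel_left] at this
    · rfl
  rw [h3, ← Finset.sum_filter, Finset.sum_const, nsmul_eq_mul] at h2
  have h4 : ((Finset.univ.filter (fun g' => ρ g' = ρ g)).card : ℚ) ≠ 0 := by
    have : (Finset.univ.filter (fun g' => ρ g' = ρ g)).Nonempty :=
      ⟨g, by rw [Finset.mem_filter]; exact ⟨Finset.mem_univ _, rfl⟩⟩
    exact_mod_cast this.card_pos.ne'
  exact (mul_eq_zero.1 h2).resolve_left h4

theorem sum_fiber (ρ : G →* Q) (hρ : Function.Surjective ρ) (F : Q → ℚ) :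
    ∑ g, F (ρ g) = (Nat.card ρ.ker : ℚ) * ∑ q, F q := by
  classical
  rw [Finset.mul_sum, ← Finset.sum_fiberwise_of_maps_to (s := (Finset.univ : Finset G))
    (t := Finset.univ) (g := ρ) (fun _ _ => Finset.mem_univ _)]
  refine Finset.sum_congr rfl fun q _ => ?_
  rw [Finset.sum_congr rfl (g := fun _ => F q) (fun g hg => by
    rw [(Finset.mem_filter.1 hg).2]), Finset.sum_const, nsmul_eq_mul]
  congr 1
  obtain ⟨g₀, rfl⟩ := hρ q
  rw [Nat.card_eq_fintype_card, ← Fintype.card_subtype]
  congr 1
  refine Fintype.card_congr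
    { toFun := fun g => ⟨g₀⁻¹ * g.1, by
        rw [MonoidHom.mem_ker, map_mul, map_inv, g.2, inv_mul_cancel]⟩
      invFun := fun n => ⟨g₀ * n.1, by
        rw [map_mul, MonoidHom.mem_ker.1 n.2, mul_one]⟩
      left_inv := fun g => Subtype.ext (mul_inv_cancel_left _ _)
      right_inv := fun n => Subtype.ext (inv_mul_cancel_left _ _) }

theorem redGrp_of_surj (ρ : G →* Q) (hρ : Function.Surjective ρ) {c : G} (hcc : c * c = 1)
    (h : RedGrp c) : RedGrp (ρ c) := by
  classical
  intro x ho hx
  set y : MonoidAlgebra ℚ G := ∑ g, x.coeff (ρ g) • single g (1 : ℚ) with hy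
  have hyc : ∀ g, y.coeff g = x.coeff (ρ g) := fun g => by rw [hy, coeff_of_sum]
  have ho' : OddEl (ρ c) x := ho
  have h1 : y = 0 := by
    apply h
    · refine odd_of_coeff hcc fun g => ?_
      rw [hyc, hyc, map_mul, ho'.coeff]
    · ext g
      rw [coeff_mul_sum]
      have h2 : ∀ u, y.coeff (g * u⁻¹) * y.coeff u =
          (fun v => x.coeff (ρ g * v⁻¹) * x.coeff v) (ρ u) := by
        intro u
        rw [hyc, hyc, map_mul, map_inv]
      rw [Finset.sum_congr rfl fun u _ => h2 u,
        sum_fiber ρ hρ (fun v => x.coeff (ρ g * v⁻¹) * x.coeff v), ← coeff_mul_sum, hx]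
      simp
  ext q
  obtain ⟨g, rfl⟩ := hρ q
  rw [← hyc, h1]
  rfl

omit [Fintype G] [Fintype Q] in
theorem RedGrp.of_equiv (e : G ≃* Q) {c : G} (h : RedGrp c) : RedGrp (e c) := by
  intro x ho hx
  have h1 : mapDomainRingHom ℚ (e.symm : Q →* G) x = 0 := by
    apply h
    · have h2 : (single c 1 : MonoidAlgebra ℚ G) =
          mapDomainRingHom ℚ (e.symm : Q →* G) (single (e c) 1) := by
        change _ = mapDomain e.symm (single (e c) 1)
        rw [mapDomain_single, e.symm_apply_apply]
      rw [h2, ← map_mul, ho, map_neg]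
    · rw [← map_mul, hx, map_zero]
  have h2 : mapDomainRingHom ℚ (e : G →* Q) (mapDomainRingHom ℚ (e.symm : Q →* G) x) = x := by
    rw [← RingHom.comp_apply, ← mapDomainRingHom_comp]
    have : (e : G →* Q).comp (e.symm : Q →* G) = MonoidHom.id Q := by
      ext q
      exact e.apply_symm_apply q
    rw [this, mapDomainRingHom_id]
    rfl
  rw [← h2, h1, map_zero]

/-! ### Groups of dicyclic type -/

/-- The element with coefficients `x(g⁻¹)`. -/
def star' (x : MonoidAlgebra ℚ G) : MonoidAlgebra ℚ G := ∑ g, x.coeff g⁻¹ • single g (1 : ℚ)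

theorem coeff_star (x : MonoidAlgebra ℚ G) (g : G) : (star' x).coeff g = x.coeff g⁻¹ := by
  unfold star'
  rw [coeff_of_sum (fun g => x.coeff g⁻¹)]

theorem eq_zero_of_mul_star {x : MonoidAlgebra ℚ G} (h : x * star' x = 0) : x = 0 := by
  classical
  have h1 : (x * star' x).coeff 1 = 0 := by
    rw [h]
    rfl
  rw [coeff_mul_sum] at h1
  have h2 : ∀ u : G, x.coeff (1 * u⁻¹) * (star' x).coeff u = x.coeff u⁻¹ ^ 2 := by
    intro u
    rw [coeff_star, one_mul, sq]
  rw [Finset.sum_congr rfl fun u _ => h2 u,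
    Finset.sum_eq_zero_iff_of_nonneg fun u _ => sq_nonneg _] at h1
  ext g
  have h3 := h1 g⁻¹ (Finset.mem_univ _)
  rw [inv_inv] at h3
  exact pow_eq_zero_iff (two_ne_zero) |>.1 h3

/-- Finite groups with an abelian subgroup `B` such that the squares of all elements outside `B` are
equal to `c`. -/
theorem redGrp_of_dicyclic {c : G} (hcc : c * c = 1) (B : Subgroup G)
    (hB : ∀ a ∈ B, ∀ b ∈ B, a * b = b * a) (hsq : ∀ g, g ∉ B → g * g = c) : RedGrp c := by
  classical
  intro x ho hx
  have hc' : c⁻¹ = c := inv_eq_of_mul_eq_one_left hcc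
  have ho' : OddEl c x := ho
  set t : MonoidAlgebra ℚ G := x + star' x with ht
  have htc : ∀ g, t.coeff g = x.coeff g + x.coeff g⁻¹ := by
    intro g
    have : t.coeff g = x.coeff g + (star' x).coeff g := rfl
    rw [this, coeff_star]
  -- `t` vanishes outside of `B`
  have hinv : ∀ g, g ∉ B → g⁻¹ = c * g := by
    intro g hg
    have h1 := hsq g hg
    rw [← h1, inv_eq_iff_mul_eq_one]
    have : g * (g * g * g) = (g * g) * (g * g) := by group
    rw [this, h1, hcc]
  have ht0 : ∀ g, g ∉ B → t.coeff g = 0 := by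
    intro g hg
    rw [htc, hinv g hg, ho'.coeff]
    ring
  -- `B` is normal up to inversion
  have htinv : ∀ g, t.coeff g⁻¹ = t.coeff g := by
    intro g
    rw [htc, htc, inv_inv, add_comm]
  have hconj : ∀ h : G, h ∉ B → ∀ b ∈ B, h * b * h⁻¹ = b⁻¹ := by
    intro h hh b hb
    have h1 : h * b ∉ B := fun h2 => hh ((Subgroup.mul_mem_cancel_right B hb).1 h2)
    have h2 := hsq _ h1
    have h3 := hsq _ hh
    -- h b h b = c = h h
    have h4 : b * h * b = h := by
      have : h * (b * h * b) = h * h := by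
        rw [h3, ← h2]
        group
      exact mul_left_cancel this
    calc h * b * h⁻¹ = b⁻¹ * (b * h * b) * h⁻¹ := by group
      _ = b⁻¹ := by rw [h4, mul_inv_cancel_right]
  have htconj : ∀ h g : G, t.coeff (h * g * h⁻¹) = t.coeff g := by
    intro h g
    by_cases hg : g ∈ B
    · by_cases hh : h ∈ B
      · rw [hB h hh g hg, mul_inv_cancel_right]
      · rw [hconj h hh g hg, htinv]
    · by_cases hhg : h * g * h⁻¹ ∈ B
      · exfalso
        apply hg
        by_cases hh : h ∈ B
        · have : g = h⁻¹ * (h * g * h⁻¹) * h := by group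
          rw [this]
          exact mul_mem (mul_mem (inv_mem hh) hhg) hh
        · have h1 : h⁻¹ ∉ B := fun h2 => hh (inv_mem_iff.1 h2)
          have h2 := hconj _ h1 _ hhg
          have h3 : h⁻¹ * (h * g * h⁻¹) * h⁻¹⁻¹ = g := by group
          rw [h3] at h2
          rw [h2]
          exact inv_mem hhg
      · rw [ht0 _ hg, ht0 _ hhg]
  have hcen : ∀ y, y * t = t * y := by
    intro y
    refine commute_of_single (fun g => ?_) y
    ext h
    rw [coeff_single_mul_apply, one_mul, coeff_mul_single_apply, mul_one]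
    have h1 := htconj g⁻¹ (h * g⁻¹)
    have h2 : g⁻¹ * (h * g⁻¹) * g⁻¹⁻¹ = g⁻¹ * h := by group
    rw [h2] at h1
    exact h1
  -- `x x* = x t`
  have h1 : x * star' x = x * t := by
    rw [ht, mul_add, hx, zero_add]
  -- star of `t x`
  have hst : star' x = t - x := by
    rw [ht]
    abel
  have hstar_mul : ∀ y z : MonoidAlgebra ℚ G, star' (y * z) = star' z * star' y := by
    intro y z
    ext g
    rw [coeff_star, coeff_mul_sum, coeff_mul_sum]
    refine Fintype.sum_equiv ((Equiv.mulRight g)) _ _ fun u => ?_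
    rw [coeff_star, coeff_star, Equiv.coe_mulRight, mul_comm]
    congr 2
    · group
    · group
  have hstar_star : ∀ y : MonoidAlgebra ℚ G, star' (star' y) = y := by
    intro y
    ext g
    rw [coeff_star, coeff_star, inv_inv]
  have hstar0 : star' (0 : MonoidAlgebra ℚ G) = 0 := by
    ext g
    rw [coeff_star]
    rfl
  have hs2 : star' x * star' x = 0 := by
    rw [← hstar_mul, hx, hstar0]
  -- (t - x)^2 = 0
  have h2 : t * t = (2 : ℚ) • (x * t) := by
    have h3 : (t - x) * (t - x) = t * t - t * x - x * t + x * x := by noncomm_ring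
    rw [hst, h3, hx, ← hcen x] at hs2
    rw [two_smul]
    have : t * t - x * t - x * t + 0 = t * t - (x * t + x * t) := by abel
    rw [this] at hs2
    exact sub_eq_zero.1 hs2
  have h3 : t * t * t * t = 0 := by
    have h4 : t * t * t * t = (t * t) * (t * t) := by noncomm_ring
    rw [h4, h2, smul_mul_smul_comm]
    have h5 : x * t * (x * t) = x * (t * x) * t := by noncomm_ring
    rw [h5, ← hcen x]
    have h6 : x * (x * t) * t = (x * x) * t * t := by noncomm_ring
    rw [h6, hx]
    simp
  -- `t` is self adjoint, so it is zero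
  have htst : star' t = t := by
    ext g
    rw [coeff_star, htinv]
  have h4 : t * t = 0 := by
    apply eq_zero_of_mul_star
    rw [hstar_mul, htst]
    rw [← mul_assoc]
    exact h3
  have h5 : t = 0 := by
    apply eq_zero_of_mul_star
    rw [htst, h4]
  apply eq_zero_of_mul_star
  rw [h1, h5, mul_zero]

end

end Pool.Agent.H65.CM
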