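import Pool.Agent.H65.CM.Sm
import Pool.Agent.H65.CM.Hom
import Pool.Agent.H65.CM.Defs
import Pool.Graph.R_seed8.W527.VFinal

/-!
# Galois CM fields whose odd rational group algebra has no nilpotents
-/

set_option autoImplicit false

namespace Pool.Agent.H65.CM

open Finset NumberField Module Pool.Agent.H204R3.CM Pool.Agent.W547.KB

noncomputable section

theorem small_of_parts {G : Type} [Group G] [Fintype G] {c : G} (hc : ∀ g, c * g = g * c)
    (hcc : c * c = 1) {K : Type*} (s : Finset K) (Nk : K → Subgroup G)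
    (hN : ∀ k ∈ s, (Nk k).Normal) (hred : ∀ k ∈ s, RedMod c (Nk k)) (Bk : K → G → ℤ)
    (hinv : ∀ k ∈ s, ∀ n ∈ Nk k, ∀ g, Bk k (g * n) = Bk k g) (B : G → ℤ)
    (hB : ∀ g, B g = ∑ k ∈ s, Bk k g) (hodd : ∀ g, B (c * g) = - B g) (hne : B ≠ 0) :
    Pool.Agent.W537.PC.Small c B := by
  classical
  apply small_of_smallQ hcc B hodd
  let bk : K → MonoidAlgebra ℚ G := fun k => ∑ g, (Bk k g : ℚ) • MonoidAlgebra.single g (1 : ℚ)
  have hbk : ∀ k g, (bk k).coeff g = Bk k g := fun k g => coeff_of_sum (fun g => (Bk k g : ℚ)) g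
  have hsum : ∑ g, (B g : ℚ) • MonoidAlgebra.single g (1 : ℚ) = ∑ k ∈ s, bk k := by
    ext g
    rw [coeff_of_sum (fun g => (B g : ℚ)), MonoidAlgebra.coeff_sum, Finsupp.finsetSum_apply, hB]
    push_cast
    exact Finset.sum_congr rfl fun k _ => (hbk k g).symm
  have hcoef : ∀ g, (∑ k ∈ s, bk k).coeff g = B g := by
    intro g
    rw [← hsum, coeff_of_sum (fun g => (B g : ℚ))]
  rw [hsum]
  refine smallQ_of_sum hc hcc s Nk hN hred bk (fun k hk => inv_of_coeff fun n hn g => ?_)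
    (odd_of_coeff hcc fun g => ?_) ?_
  · rw [hbk, hbk, hinv k hk n hn]
  · rw [hcoef, hcoef, hodd]
    push_cast
    rfl
  · intro h0
    apply hne
    funext g
    have h1 := hcoef g
    rw [h0] at h1
    have h2 : ((B g : ℤ) : ℚ) = 0 := h1.symm
    exact_mod_cast h2

theorem exists_restrict {F L : Type} [Field F] [NumberField F] [IsGalois ℚ F] [Field L]
    [NumberField L] [IsGalois ℚ L] (ψ₀ : F →+* L) :
    ∃ ρ : (L ≃ₐ[ℚ] L) →* (F ≃ₐ[ℚ] F), Function.Surjective ρ ∧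
      ∀ σ x, ψ₀ (ρ σ x) = σ (ψ₀ x) := by
  let _ : Algebra F L := ψ₀.toAlgebra
  have _ : IsScalarTower ℚ F L := IsScalarTower.of_algebraMap_eq fun x => by
    rw [eq_ratCast, eq_ratCast, map_ratCast]
  refine ⟨AlgEquiv.restrictNormalHom F, AlgEquiv.restrictNormalHom_surjective L,
    fun σ x => ?_⟩
  exact AlgEquiv.restrictNormal_commutes σ F x

variable {L : Type} [Field L] [NumberField L] [IsCMField L] [IsGalois ℚ L] (j : L →+* ℂ)

include j in
theorem conj_of_restrict {F : Type} [Field F] [NumberField F] [IsGalois ℚ F] (ψ₀ : F →+* L)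
    (ρ : (L ≃ₐ[ℚ] L) →* (F ≃ₐ[ℚ] F)) (hρ : ∀ σ x, ψ₀ (ρ σ x) = σ (ψ₀ x)) (φ : F →+* ℂ) :
    φ.comp ((ρ (cc L) : F ≃ₐ[ℚ] F) : F →+* F) = ComplexEmbedding.conjugate φ := by
  classical
  have h1 : Function.Bijective (fun a : F ≃ₐ[ℚ] F => (j.comp ψ₀).comp (a : F →+* F)) := by
    rw [Fintype.bijective_iff_injective_and_card]
    refine ⟨fun a b hab => ?_, ?_⟩
    · ext x
      exact (j.comp ψ₀).injective (RingHom.congr_fun hab x)
    · rw [Embeddings.card, ← Nat.card_eq_fintype_card, IsGalois.card_aut_eq_finrank]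
  obtain ⟨a, rfl⟩ := h1.2 φ
  obtain ⟨τ, hτ⟩ := MulAction.exists_smul_eq (L ≃ₐ[ℚ] L) ψ₀ (ψ₀.comp (a : F →+* F))
  have hτ' : ∀ x, τ (ψ₀ x) = ψ₀ (a x) := fun x => RingHom.congr_fun hτ x
  have hcomm : ∀ x, ρ (cc L) (a x) = a (ρ (cc L) x) := by
    intro x
    apply ψ₀.injective
    rw [hρ, ← hτ', ← hτ', hρ]
    exact DFunLike.congr_fun (cc_comm j τ) (ψ₀ x)
  ext x
  change j (ψ₀ (a (ρ (cc L) x))) = _
  rw [← hcomm, hρ, emb_cc, ComplexEmbedding.conjugate_coe_eq]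
  rfl

include j in
theorem exists_redMod {F : Type} [Field F] [NumberField F] (hF : OddReduced F) (ψ₀ : F →+* L) :
    ∃ N : Subgroup (L ≃ₐ[ℚ] L), N.Normal ∧ RedMod (cc L) N ∧
      ∀ n ∈ N, ∀ (σ : L ≃ₐ[ℚ] L) (ψ : F →+* L), (σ * n) • ψ = σ • ψ := by
  have := hF.1
  obtain ⟨ρ, hρs, hρ⟩ := exists_restrict ψ₀
  refine ⟨ρ.ker, inferInstance, redMod_of_hom ρ (cc L) (hF.2 _ (conj_of_restrict j ψ₀ ρ hρ)), ?_⟩
  intro n hn σ ψ
  obtain ⟨τ, rfl⟩ := MulAction.exists_smul_eq (L ≃ₐ[ℚ] L) ψ₀ ψ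
  have h1 : τ⁻¹ * n * τ ∈ ρ.ker := by
    have := (inferInstance : ρ.ker.Normal).conj_mem n hn τ⁻¹
    rwa [inv_inv] at this
  have h2 : (τ⁻¹ * n * τ) • ψ₀ = ψ₀ := by
    ext x
    have h3 := hρ (τ⁻¹ * n * τ) x
    rw [MonoidHom.mem_ker.1 h1] at h3
    exact h3.symm
  have h3 : (σ * n) • τ • ψ₀ = σ • τ • (τ⁻¹ * n * τ) • ψ₀ := by
    rw [← mul_smul, ← mul_smul, ← mul_smul]
    congr 1
    group
  rw [h3, h2]

theorem OddReduced.of_abelian {F : Type} [Field F] [NumberField F]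
    (hF : Pool.Agent.W537.PC.IsAbelian F) : OddReduced F := by
  classical
  refine ⟨hF.1, fun c hc => ?_⟩
  have hcc : c * c = 1 := by
    ext x
    obtain ⟨φ⟩ : Nonempty (F →+* ℂ) := inferInstance
    apply φ.injective
    have h1 := RingHom.congr_fun (hc φ) (c x)
    have h2 := RingHom.congr_fun (hc φ) x
    change φ (c (c x)) = φ x
    have h1' : φ (c (c x)) = starRingEnd ℂ (φ (c x)) := h1
    have h2' : φ (c x) = starRingEnd ℂ (φ x) := h2
    rw [h1', h2', Complex.conj_conj]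
  exact redGrp_of_dicyclic hcc ⊤ (fun a _ b _ => hF.2 a b) (fun g hg => absurd
    (Subgroup.mem_top g) hg)

end

end Pool.Agent.H65.CM
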