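import Pool.Agent.H65.CM.Short
import Pool.Graph.R_pool_sql_team_seeded_2aa45f1a.Q306.TP.Forces

/-!
# Galois CM fields without common CM subfields
-/

set_option autoImplicit false

namespace Pool.Agent.H65.CM

open Finset NumberField Module Pool.Agent.Y137.MV Pool.Agent.Q306.TP Pool.Agent.Y1.CT
  Pool.Agent.W547.KB IntermediateField Pool.Agent.H204R3.CM

noncomputable section

/-- The complex numbers which are contained in an image of `K` and in an image of `E` are real: the
fields have no CM field in common (if `K` is a Galois CM field). -/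
def RealIntersection (K E : Type) [Field K] [Field E] : Prop :=
  ∀ (φ : K →+* ℂ) (ψ : E →+* ℂ) (x : K) (y : E), φ x = ψ y → starRingEnd ℂ (φ x) = φ x

theorem fixing_inf {L : Type*} [Field L] [NumberField L] [IsGalois ℚ L]
    (K E : IntermediateField ℚ L) :
    (K ⊓ E).fixingSubgroup = K.fixingSubgroup ⊔ E.fixingSubgroup := by
  apply le_antisymm
  · have h1 : fixedField (K.fixingSubgroup ⊔ E.fixingSubgroup) ≤ K ⊓ E := by
      apply le_inf
      · have h2 : fixedField (K.fixingSubgroup ⊔ E.fixingSubgroup) ≤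
            fixedField K.fixingSubgroup := by
          intro x hx
          rw [IntermediateField.mem_fixedField_iff] at hx ⊢
          exact fun f hf => hx f (Subgroup.mem_sup_left hf)
        rwa [IsGalois.fixedField_fixingSubgroup] at h2
      · have h2 : fixedField (K.fixingSubgroup ⊔ E.fixingSubgroup) ≤
            fixedField E.fixingSubgroup := by
          intro x hx
          rw [IntermediateField.mem_fixedField_iff] at hx ⊢
          exact fun f hf => hx f (Subgroup.mem_sup_right hf)
        rwa [IsGalois.fixedField_fixingSubgroup] at h2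
    intro g hg
    have h3 : g ∈ (fixedField (K.fixingSubgroup ⊔ E.fixingSubgroup)).fixingSubgroup := by
      rw [IntermediateField.mem_fixingSubgroup_iff] at hg ⊢
      exact fun x hx => hg x (h1 hx)
    rwa [IntermediateField.fixingSubgroup_fixedField] at h3
  · apply sup_le
    · intro g hg
      rw [IntermediateField.mem_fixingSubgroup_iff] at hg ⊢
      exact fun x hx => hg x hx.1
    · intro g hg
      rw [IntermediateField.mem_fixingSubgroup_iff] at hg ⊢
      exact fun x hx => hg x hx.2

/-- The image of an embedding of a Galois field. -/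
theorem range_eq {K L : Type*} [Field K] [NumberField K] [IsGalois ℚ K] [Field L] [NumberField L]
    [IsGalois ℚ L] (φ₀ φ : K →+* L) (x : K) :
    φ x ∈ (RingHom.equivRatAlgHom K L φ₀).fieldRange := by
  classical
  obtain ⟨j⟩ : Nonempty (L →+* ℂ) := inferInstance
  have h1 : Function.Bijective (fun a : K ≃ₐ[ℚ] K => (j.comp φ₀).comp (a : K →+* K)) := by
    rw [Fintype.bijective_iff_injective_and_card]
    refine ⟨fun a b hab => ?_, ?_⟩
    · ext y
      exact (j.comp φ₀).injective (RingHom.congr_fun hab y)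
    · rw [Embeddings.card, ← Nat.card_eq_fintype_card, IsGalois.card_aut_eq_finrank]
  obtain ⟨a, ha⟩ := h1.2 (j.comp φ)
  refine ⟨a x, j.injective ?_⟩
  exact RingHom.congr_fun ha x

theorem exists_flip {K E : Type} [Field K] [NumberField K] [IsGalois ℚ K] [Field E]
    [NumberField E] [IsGalois ℚ E] (h : RealIntersection K E) :
    ∃ τ : ℂ ≃+* ℂ, (∀ (ψ : E →+* ℂ) (y : E), τ (ψ y) = ψ y) ∧
      ∀ (φ : K →+* ℂ) (x : K), τ (φ x) = starRingEnd ℂ (φ x) := by
  classical
  let F : Bool → Type := fun b => if b then K else E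
  let fld : ∀ b, Field (F b) := fun b => by
    cases b
    · exact (inferInstance : Field E)
    · exact (inferInstance : Field K)
  have nf : ∀ b, @NumberField (F b) (fld b) := fun b => by
    cases b
    · exact (inferInstance : NumberField E)
    · exact (inferInstance : NumberField K)
  obtain ⟨L, hLa, hLb, j, hj⟩ := exists_galois F
  have hK : ∀ ψ : K →+* ℂ, ∃ φ : K →+* L, j.comp φ = ψ := hj true
  have hE : ∀ ψ : E →+* ℂ, ∃ φ : E →+* L, j.comp φ = ψ := hj false
  obtain ⟨ψK⟩ : Nonempty (K →+* ℂ) := inferInstance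
  obtain ⟨ψE⟩ : Nonempty (E →+* ℂ) := inferInstance
  obtain ⟨φK, -⟩ := hK ψK
  obtain ⟨φE, -⟩ := hE ψE
  let K' : IntermediateField ℚ L := (RingHom.equivRatAlgHom K L φK).fieldRange
  let E' : IntermediateField ℚ L := (RingHom.equivRatAlgHom E L φE).fieldRange
  have hKn : K'.fixingSubgroup.Normal := by
    refine ⟨fun n hn g => ?_⟩
    rw [IntermediateField.mem_fixingSubgroup_iff] at hn ⊢
    rintro _ ⟨x, rfl⟩
    have h1 : g⁻¹ (φK x) ∈ K' := range_eq φK (((g⁻¹ : L ≃ₐ[ℚ] L) : L →+* L).comp φK) x
    have h2 := hn _ h1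
    change g (n (g⁻¹ (φK x))) = φK x
    rw [h2]
    exact g.apply_symm_apply _
  obtain ⟨c, hc⟩ := Pool.Agent.H977R3.CM.exists_gal j (starRingAut : ℂ ≃+* ℂ)
  have hc' : ∀ x, starRingEnd ℂ (j x) = j (c x) := hc
  have hcmem : c ∈ (K' ⊓ E').fixingSubgroup := by
    rw [IntermediateField.mem_fixingSubgroup_iff]
    rintro x ⟨⟨a, ha⟩, b, hb⟩
    have ha' : φK a = x := ha
    have hb' : φE b = x := hb
    apply j.injective
    rw [← hc']
    have h1 := h (j.comp φK) (j.comp φE) a b (by
      change j (φK a) = j (φE b)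
      rw [ha', hb'])
    change starRingEnd ℂ (j (φK a)) = j (φK a) at h1
    rwa [ha'] at h1
  rw [fixing_inf, sup_comm, Subgroup.mem_sup_of_normal_right] at hcmem
  obtain ⟨b, hb, a, ha, hba⟩ := hcmem
  obtain ⟨τ, hτ⟩ := Pool.Agent.H977R3.CM.exists_aut j (b : L ≃+* L)
  rw [IntermediateField.mem_fixingSubgroup_iff] at hb ha
  refine ⟨τ, fun ψ y => ?_, fun φ x => ?_⟩
  · obtain ⟨ψ', rfl⟩ := hE ψ
    change τ (j (ψ' y)) = j (ψ' y)
    rw [hτ]
    congr 1
    exact hb _ (range_eq φE ψ' y)
  · obtain ⟨φ', rfl⟩ := hK φ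
    change τ (j (φ' x)) = starRingEnd ℂ (j (φ' x))
    rw [hτ, hc', ← hba]
    congr 1
    change b (φ' x) = b (a (φ' x))
    rw [ha _ (range_eq φK φ' x)]

theorem unrelated_of_flip {K E : Type} [Field K] [NumberField K] [Field E] [NumberField E]
    (τ : ℂ ≃+* ℂ) (h1 : ∀ (ψ : E →+* ℂ) (y : E), τ (ψ y) = ψ y)
    (h2 : ∀ (φ : K →+* ℂ) (x : K), τ (φ x) = starRingEnd ℂ (φ x)) (ψ : E →+* ℂ) (y : E) :
    UnrelatedTo K (ψ y) := by
  intro n hn hinv
  funext φ
  have h3 := hinv τ ⟨1, one_pos, by rw [pow_one, h1]⟩ φ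
  have h4 : (τ : ℂ →+* ℂ).comp φ = ComplexEmbedding.conjugate φ := by
    ext x
    rw [ComplexEmbedding.conjugate_coe_eq]
    exact h2 φ x
  rw [h4, hn] at h3
  change n φ = 0
  linarith

/-- **Families.** -/
theorem angle_family_iff {q : ℕ} (hq : q ≠ 0) {I : Type} [Fintype I] {F : I → Type}
    [∀ i, Field (F i)] [∀ i, NumberField (F i)] [∀ i, IsCMField (F i)] {π : ∀ i, F i}
    (hred : ∀ i, OddReduced (F i))
    (hw : ∀ i, π i * IsCMField.complexConj (F i) (π i) = (q : F i))
    (hreal : ∀ i k, i ≠ k → RealIntersection (F i) (F k)) :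
    MaximalAngleRank q π ↔ ∀ i, NoShort q (π i) := by
  classical
  constructor
  · intro h i
    apply noShort_of_angle
    intro r n hrel u φ
    have h1 := h r (fun x => if hx : x.1 = i then n ⟨(), hx ▸ x.2⟩ else 0) (by
      rw [← hrel, Fintype.prod_sigma, Fintype.prod_sigma]
      simp only [Finset.univ_unique, Finset.prod_singleton]
      rw [Finset.prod_eq_single i]
      · refine Finset.prod_congr rfl fun ψ _ => ?_
        rw [dif_pos rfl]
      · intro k _ hk
        refine Finset.prod_eq_one fun ψ _ => ?_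
        rw [dif_neg hk, zpow_zero]
      · intro hi
        exact absurd (Finset.mem_univ i) hi) i φ
    simp only [dif_pos] at h1
    exact h1
  · intro h
    let ix : I ≃ Fin (Fintype.card I) := Fintype.equivFin _
    refine angle_of_order hq hw (fun i => (ix i : ℕ))
      (fun i k hik => ix.injective (Fin.ext hik)) (fun i k hik ψ => ?_)
      (fun i => (angle_iff_noShort (hred i) hq (hw i)).2 (h i))
    have hki : i ≠ k := by
      rintro rfl
      exact lt_irrefl _ hik
    have _ := (hred i).1
    have _ := (hred k).1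
    obtain ⟨τ, h1, h2⟩ := exists_flip (hreal i k hki)
    exact unrelated_of_flip τ h1 h2 ψ (π k)

end

end Pool.Agent.H65.CM
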