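import Mathlib

/-!
# Finite groups all of whose subgroups without a given central involution are normal
-/

set_option autoImplicit false

namespace Pool.Agent.H65.CM

open Subgroup

section abs

variable {Q : Type*} [Group Q] [Finite Q] {c : Q}

omit [Finite Q] in
theorem normal_zpowers_of_odd (hcc : c * c = 1) (hc1 : c ≠ 1)
    (hnorm : ∀ H : Subgroup Q, c ∉ H → H.Normal) {g : Q} (hg : Odd (orderOf g)) :
    (zpowers g).Normal := by
  apply hnorm
  intro h
  have h1 : orderOf c = 2 := orderOf_eq_prime (by rw [sq, hcc]) hc1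
  have h2 : orderOf c ∣ orderOf g := by
    obtain ⟨k, rfl⟩ := h
    exact orderOf_dvd_of_pow_eq_one (by
      change (g ^ k) ^ orderOf g = 1
      rw [← zpow_natCast, ← zpow_mul, mul_comm, zpow_mul, zpow_natCast, pow_orderOf_eq_one,
        one_zpow])
  rw [h1] at h2
  exact (Nat.not_even_iff_odd.2 hg) (even_iff_two_dvd.2 h2)

theorem exists_two_pow (g : Q) : ∃ k : ℕ, Odd (orderOf (g ^ 2 ^ k)) := by
  obtain ⟨k, m, hm, h⟩ := Nat.exists_eq_two_pow_mul_odd (orderOf_pos g).ne'
  refine ⟨k, ?_⟩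
  rw [orderOf_pow, h, Nat.gcd_eq_right (Dvd.intro _ rfl), Nat.mul_div_cancel_left _ (by positivity)]
  exact hm

theorem exists_self_centralizing (hc1 : c ≠ 1) (hcc : c * c = 1)
    (hnorm : ∀ H : Subgroup Q, c ∉ H → H.Normal) :
    ∃ A : Subgroup Q, A.Normal ∧ (∀ a ∈ A, ∀ b ∈ A, a * b = b * a) ∧
      ∀ g, (∀ a ∈ A, g * a = a * g) → g ∈ A := by
  classical
  have : Fact (Nat.Prime 2) := ⟨Nat.prime_two⟩
  obtain ⟨A, hA⟩ := (Set.toFinite {A : Subgroup Q | A.Normal ∧ ∀ a ∈ A, ∀ b ∈ A,
    a * b = b * a}).exists_maximal ⟨⊥, inferInstance, fun a ha b hb => by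
      rw [mem_bot] at ha hb
      rw [ha, hb]⟩
  obtain ⟨⟨hAn, hAc⟩, hmax⟩ := hA
  refine ⟨A, hAn, hAc, ?_⟩
  -- the general claim
  have key : ∀ g : Q, (∀ a ∈ A, g * a = a * g) → (A ⊔ zpowers g).Normal → g ∈ A := by
    intro g hg hn
    have hle : A ⊔ zpowers g ≤ centralizer (A ⊔ zpowers g : Subgroup Q) := by
      have h1 : A ≤ centralizer (A : Set Q) := by
        intro a ha
        rw [mem_centralizer_iff]
        exact fun b hb => hAc b hb a ha
      have h2 : zpowers g ≤ centralizer (A : Set Q) := by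
        rw [zpowers_le, mem_centralizer_iff]
        exact fun b hb => (hg b hb).symm
      have h3 : A ⊔ zpowers g ≤ centralizer (A : Set Q) := sup_le h1 h2
      have h4 : A ⊔ zpowers g ≤ centralizer (zpowers g : Set Q) := by
        refine sup_le ?_ ?_
        · intro a ha
          rw [mem_centralizer_iff]
          intro b hb
          have h5 := h2 hb
          rw [mem_centralizer_iff] at h5
          exact (h5 a ha).symm
        · intro x hx
          rw [mem_centralizer_iff]
          rintro b ⟨k, rfl⟩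
          obtain ⟨l, rfl⟩ := hx
          exact (Commute.refl g).zpow_zpow k l
      refine sup_le ?_ ?_
      · intro a ha
        rw [mem_centralizer_iff]
        intro b hb
        have h5 := h3 hb
        rw [mem_centralizer_iff] at h5
        exact (h5 a ha).symm
      · intro x hx
        rw [mem_centralizer_iff]
        intro b hb
        have h5 := h4 hb
        rw [mem_centralizer_iff] at h5
        exact (h5 x hx).symm
    have h6 := hmax (y := A ⊔ zpowers g) ⟨hn, fun a ha b hb => by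
      have h7 := hle hb
      rw [mem_centralizer_iff] at h7
      exact h7 a ha⟩ le_sup_left
    exact h6 (le_sup_right (a := A) (mem_zpowers g))
  set C : Subgroup Q := centralizer (A : Set Q) with hC
  have hCn : C.Normal := by
    rw [hC]
    infer_instance
  have hCmem : ∀ {g}, g ∈ C ↔ ∀ a ∈ A, g * a = a * g := by
    intro g
    rw [hC, mem_centralizer_iff]
    exact ⟨fun h a ha => (h a ha).symm, fun h a ha => (h a ha).symm⟩
  have hodd : ∀ g ∈ C, Odd (orderOf g) → g ∈ A := by
    intro g hg ho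
    have h1 := normal_zpowers_of_odd hcc hc1 hnorm ho
    exact key g (hCmem.1 hg) inferInstance
  -- commutators with elements of odd order
  have hcom : ∀ g : Q, Odd (orderOf g) → ∀ x ∈ C, g * x * g⁻¹ * x⁻¹ ∈ A := by
    intro g ho x hx
    have h1 := normal_zpowers_of_odd hcc hc1 hnorm ho
    have h2 : g * x * g⁻¹ * x⁻¹ ∈ zpowers g := by
      have h3 : x * g⁻¹ * x⁻¹ ∈ zpowers g := h1.conj_mem _ (inv_mem (mem_zpowers g)) x
      have h4 := mul_mem (mem_zpowers g) h3
      simpa [mul_assoc] using h4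
    have h3 : g * x * g⁻¹ * x⁻¹ ∈ C := mul_mem (hCn.conj_mem x hx g) (inv_mem hx)
    refine hodd _ h3 ?_
    obtain ⟨k, hk⟩ := h2
    have h4 : orderOf (g * x * g⁻¹ * x⁻¹) ∣ orderOf g := by
      have hk' : g ^ k = g * x * g⁻¹ * x⁻¹ := hk
      rw [← hk']
      exact orderOf_dvd_of_pow_eq_one (by
        rw [← zpow_natCast, ← zpow_mul, mul_comm, zpow_mul, zpow_natCast, pow_orderOf_eq_one,
          one_zpow])
    obtain ⟨m, hm⟩ := h4
    rw [hm] at ho
    exact (Nat.odd_mul.1 ho).1
  by_contra hcon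
  push Not at hcon
  obtain ⟨g₀, hg₀, hg₀A⟩ := hcon
  -- the quotient by `A`
  let π : Q →* Q ⧸ A := QuotientGroup.mk' A
  have hπ : Function.Surjective π := QuotientGroup.mk'_surjective A
  let C' : Subgroup (Q ⧸ A) := C.map π
  have hC'n : C'.Normal := hCn.map π hπ
  have hC'p : IsPGroup 2 C' := by
    rintro ⟨_, x, hx, rfl⟩
    obtain ⟨k, hk⟩ := exists_two_pow x
    refine ⟨k, Subtype.ext ?_⟩
    have h1 : x ^ 2 ^ k ∈ A := hodd _ (pow_mem hx _) hk
    change (π x) ^ 2 ^ k = 1
    rw [← map_pow]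
    exact (QuotientGroup.eq_one_iff _).2 h1
  have hC'1 : Nontrivial C' := by
    refine ⟨⟨⟨π g₀, g₀, hCmem.2 hg₀, rfl⟩, 1, fun h => hg₀A ?_⟩⟩
    exact (QuotientGroup.eq_one_iff _).1 (congrArg Subtype.val h)
  obtain ⟨P⟩ : Nonempty (Sylow 2 (Q ⧸ A)) := inferInstance
  let φ : P →* MulAut C' := (MulAut.conjNormal (H := C')).comp P.toSubgroup.subtype
  let _ : MulAction P C' := MulAction.compHom C' φ
  have hact : ∀ (p : P) (x : C'), ((p • x : C') : Q ⧸ A) = (p : Q ⧸ A) * x * (p : Q ⧸ A)⁻¹ := by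
    intro p x
    rfl
  obtain ⟨b, hb, hb1⟩ := P.isPGroup'.exists_fixed_point_of_prime_dvd_card_of_fixed_point
    (α := C') (by
      obtain ⟨n, hn⟩ := IsPGroup.iff_card.1 hC'p
      have h1 : 1 < Nat.card C' := Finite.one_lt_card
      rw [hn] at h1 ⊢
      exact dvd_pow_self 2 (by
        rintro rfl
        norm_num at h1)) (a := 1) (by
      intro p
      apply Subtype.ext
      rw [hact]
      simp)
  -- the centralizer of `b`
  let K : Subgroup (Q ⧸ A) := centralizer {(b : Q ⧸ A)}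
  have hK : ∀ {q : Q ⧸ A}, q ∈ K ↔ q * b = b * q := by
    intro q
    rw [mem_centralizer_singleton_iff]
  have hPK : P.toSubgroup ≤ K := by
    intro p hp
    rw [hK]
    have h1 := congrArg Subtype.val (hb ⟨p, hp⟩)
    rw [hact] at h1
    exact mul_inv_eq_iff_eq_mul.1 h1
  let O : Subgroup (Q ⧸ A) := closure {q | ∃ g : Q, Odd (orderOf g) ∧ π g = q}
  have hOn : O.Normal := by
    refine ⟨fun n hn q => ?_⟩
    have h1 : O.map (MulAut.conj q).toMonoidHom ≤ O := by
      change (Subgroup.closure _).map _ ≤ _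
      rw [MonoidHom.map_closure, closure_le]
      rintro _ ⟨_, ⟨g, hg, rfl⟩, rfl⟩
      obtain ⟨h, rfl⟩ := hπ q
      refine subset_closure ⟨h * g * h⁻¹, ?_, by rw [map_mul, map_mul, map_inv]; rfl⟩
      have : orderOf (h * g * h⁻¹) = orderOf g := by
        have := orderOf_injective (MulAut.conj h).toMonoidHom (MulAut.conj h).injective g
        simpa using this
      rw [this]
      exact hg
    exact h1 ⟨n, hn, rfl⟩
  have hOK : O ≤ K := by
    rw [closure_le]
    rintro _ ⟨g, hg, rfl⟩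
    obtain ⟨⟨_, x, hx, rfl⟩, hb'⟩ := b, hb
    change π g ∈ K
    rw [hK]
    have h1 := hcom g hg x hx
    have h2 : π (g * x * g⁻¹ * x⁻¹) = 1 := (QuotientGroup.eq_one_iff _).2 h1
    rw [map_mul, map_mul, map_mul, map_inv, map_inv, mul_inv_eq_one] at h2
    exact mul_inv_eq_iff_eq_mul.1 h2
  have hQO : IsPGroup 2 ((Q ⧸ A) ⧸ O) := by
    intro q
    obtain ⟨q, rfl⟩ := QuotientGroup.mk_surjective q
    obtain ⟨g, rfl⟩ := hπ q
    obtain ⟨k, hk⟩ := exists_two_pow g
    refine ⟨k, ?_⟩
    have h1 : (π g) ^ 2 ^ k ∈ O := subset_closure ⟨g ^ 2 ^ k, hk, map_pow _ _ _⟩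
    rw [← QuotientGroup.mk_pow]
    exact (QuotientGroup.eq_one_iff _).2 h1
  have hKtop : K = ⊤ := by
    rw [← index_eq_one]
    obtain ⟨n, hn⟩ := IsPGroup.iff_card.1 hQO
    have h1 : K.index ∣ 2 ^ n := by
      rw [← hn]
      exact Subgroup.index_dvd_of_le hOK
    have h2 : K.index ∣ P.toSubgroup.index := Subgroup.index_dvd_of_le hPK
    obtain ⟨k, _, hk⟩ := (Nat.dvd_prime_pow Nat.prime_two).1 h1
    rcases Nat.eq_zero_or_pos k with rfl | hk0
    · rw [hk, pow_zero]
    · exfalso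
      have h3 : 2 ∣ K.index := by
        rw [hk]
        exact dvd_pow_self 2 hk0.ne'
      exact P.not_dvd_index (h3.trans h2)
  -- the contradiction
  obtain ⟨⟨_, x, hx, rfl⟩, hb'⟩ := b, hb
  have hxA : x ∉ A := by
    intro h
    apply hb1
    apply Subtype.ext
    exact ((QuotientGroup.eq_one_iff _).2 h).symm
  apply hxA
  refine key x (hCmem.1 hx) ⟨fun y hy g => ?_⟩
  have hgx : g * x * g⁻¹ ∈ A ⊔ zpowers x := by
    have h1 : π g ∈ K := by
      rw [hKtop]
      exact mem_top _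
    rw [hK] at h1
    have h2 : g * x * g⁻¹ * x⁻¹ ∈ A := by
      rw [← QuotientGroup.eq_one_iff]
      change π (g * x * g⁻¹ * x⁻¹) = 1
      have h3 : π g * π x = π x * π g := h1
      rw [map_mul, map_mul, map_mul, map_inv, map_inv, h3]
      group
    have h3 := mul_mem (le_sup_left (b := zpowers x) h2) (le_sup_right (a := A) (mem_zpowers x))
    simpa using h3
  have h1 : (A ⊔ zpowers x).map (MulAut.conj g).toMonoidHom ≤ A ⊔ zpowers x := by
    rw [Subgroup.map_sup]
    refine sup_le ?_ ?_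
    · rintro _ ⟨a, ha, rfl⟩
      exact le_sup_left (b := zpowers x) (hAn.conj_mem a ha g)
    · rw [MonoidHom.map_zpowers, zpowers_le]
      exact hgx
  exact h1 ⟨y, hy, rfl⟩

end abs

/-- The relative form. -/
theorem exists_rel {G : Type*} [Group G] [Finite G] {c : G} (hcc : c * c = 1)
    {N : Subgroup G} (hN : N.Normal) (hcN : c ∉ N)
    (hnorm : ∀ H : Subgroup G, N ≤ H → c ∉ H → H.Normal) :
    ∃ A : Subgroup G, A.Normal ∧ N ≤ A ∧ (∀ a ∈ A, ∀ b ∈ A, a * b * a⁻¹ * b⁻¹ ∈ N) ∧
      ∀ g, (∀ a ∈ A, g * a * g⁻¹ * a⁻¹ ∈ N) → g ∈ A := by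
  let π : G →* G ⧸ N := QuotientGroup.mk' N
  have hπ : Function.Surjective π := QuotientGroup.mk'_surjective N
  have hone : ∀ {g : G}, π g = 1 ↔ g ∈ N := fun {g} => QuotientGroup.eq_one_iff g
  obtain ⟨A, hAn, hAc, hAs⟩ := exists_self_centralizing (Q := G ⧸ N) (c := π c)
    (fun h => hcN (hone.1 h)) (by rw [← map_mul, hcc, map_one]) (fun H hH => by
      have h1 : N ≤ H.comap π := by
        intro n hn
        change π n ∈ H
        rw [hone.2 hn]
        exact one_mem _
      have h2 := hnorm (H.comap π) h1 hH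
      have h3 := h2.map π hπ
      rwa [Subgroup.map_comap_eq_self_of_surjective hπ] at h3)
  refine ⟨A.comap π, inferInstance, ?_, ?_, ?_⟩
  · intro n hn
    change π n ∈ A
    rw [hone.2 hn]
    exact one_mem _
  · intro a ha b hb
    rw [← hone, map_mul, map_mul, map_mul, map_inv, map_inv, hAc _ ha _ hb]
    group
  · intro g hg
    refine hAs _ fun a ha => ?_
    obtain ⟨a, rfl⟩ := hπ a
    have h1 := hone.2 (hg a ha)
    rw [map_mul, map_mul, map_mul, map_inv, map_inv, mul_inv_eq_one, mul_inv_eq_iff_eq_mul] at h1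
    exact h1

end Pool.Agent.H65.CM
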