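import Pool.Agent.H65.CM.Field
import Pool.Graph.R_seed8.TH127.PG.Final

/-!
# De Rham-Betti classes: CM subfields with reduced odd rational group algebras
-/

set_option linter.unusedSectionVars false
set_option linter.unusedVariables false

namespace Pool.Agent.H65.CM

open NumberField Pool.Agent.H204R3.CM Pool.Agent.W547.KB Pool.Agent.W537.PC Module
  Pool.Agent.W527 Pool.Agent.W527.Dec Pool.Agent.W527.Struct Pool.Agent.H977R3.WN
  Pool.Agent.W527.Vec Pool.Agent.W527.Per Pool.Agent.TH127.SC Pool.Agent.TH127.PG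

noncomputable section

/-- The Galois group acts on the embeddings of `F` through a quotient whose odd rational group
algebra has no nilpotents. -/
def RedAct (L : Type) [Field L] [NumberField L] [IsCMField L] (F : Type) [Field F] : Prop :=
  ∃ N : Subgroup (L ≃ₐ[ℚ] L), N.Normal ∧ RedMod (cc L) N ∧
    ∀ n ∈ N, ∀ (σ : L ≃ₐ[ℚ] L) (ψ : F →+* L), (σ * n) • ψ = σ • ψ

section

variable {ι : Type} [Fintype ι] (A : ι → CMPair) {L : Type} [Field L] [NumberField L]
  [IsCMField L] [IsGalois ℚ L] (j : L →+* ℂ) {P : PeriodSystem}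

theorem small_of_redAct
    (hj : ∀ i, ∀ ψ : (A i).E →+* ℂ, ∃ φ : (A i).E →+* L, j.comp φ = ψ)
    (m n : ℤ) {i i' : ι} {T : IntermediateField ℚ (A i).E}
    {T' : IntermediateField ℚ (A i').E} (ψ : T →+* L) (ψ' : T' →+* L)
    (hT : RedAct L T) (hT' : RedAct L T') (hne : dif j A m n ψ ψ' ≠ 0) :
    Pool.Agent.W537.PC.Small (cc L) (dif j A m n ψ ψ') := by
  obtain ⟨N, hN, hNr, hNa⟩ := hT
  obtain ⟨N', hN', hNr', hNa'⟩ := hT'
  refine small_of_parts (cc_comm j) cc_cc (Finset.univ : Finset Bool)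
    (fun b => if b then N else N') (fun b _ => ?_) (fun b _ => ?_)
    (fun b σ => if b then m * tr T (wt (fun i => (A i).Φ) j i) (σ • ψ) else
      - (n * tr T' (wt (fun i => (A i).Φ) j i') (σ • ψ'))) (fun b _ ν hν g => ?_)
    _ (fun g => ?_) (dif_odd j A hj m n ψ ψ') hne
  · cases b
    · exact hN'
    · exact hN
  · cases b
    · exact hNr'
    · exact hNr
  · cases b
    · change - (n * tr T' (wt (fun i => (A i).Φ) j i') ((g * ν) • ψ')) =
        - (n * tr T' (wt (fun i => (A i).Φ) j i') (g • ψ'))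
      rw [hNa' ν hν g ψ']
    · change m * tr T (wt (fun i => (A i).Φ) j i) ((g * ν) • ψ) =
        m * tr T (wt (fun i => (A i).Φ) j i) (g • ψ)
      rw [hNa ν hν g ψ]
  · rw [Fintype.sum_bool]
    change _ = m * tr T (wt (fun i => (A i).Φ) j i) (g • ψ) +
      - (n * tr T' (wt (fun i => (A i).Φ) j i') (g • ψ'))
    unfold dif
    ring

/-- All relations for families of subfields with reduced odd group algebras are explained. -/
theorem direct_of_red (hB : P.Bost) (hD : P.Deligne)
    (T : ∀ i, IntermediateField ℚ (A i).E) (S : Finset ι)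
    (hT : ∀ i ∈ S, RedAct L (T i)) : Direct (cc L) (ww A j P) (ee A j) T S := by
  classical
  intro c hc hrel
  let n : EE A L → ℤ := fun z => if z.1 ∈ S then c z.1 (res (T z.1) z.2) else 0
  have hsum : ∀ {U : Type} [AddCommGroup U] (u : ∀ i, ((A i).E →+* L) → U) (g : L ≃ₐ[ℚ] L),
      ∑ z : EE A L, n z • u z.1 (g • z.2) =
        ∑ i ∈ S, ∑ ψ : (T i →+* L), c i ψ • trV (T i) (u i) (g • ψ) := by
    intro U _ u g
    rw [Fintype.sum_sigma, ← Finset.sum_subset (Finset.subset_univ S)]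
    · refine Finset.sum_congr rfl fun i hi => ?_
      rw [← sum_resV (T i) (c i) (u i) g]
      refine Finset.sum_congr rfl fun φ _ => ?_
      change (if i ∈ S then c i (res (T i) φ) else 0) • u i (g • φ) = _
      rw [if_pos hi]
    · intro i _ hi
      refine Finset.sum_eq_zero fun φ _ => ?_
      change (if i ∈ S then c i (res (T i) φ) else 0) • u i (g • φ) = 0
      rw [if_neg hi, zero_smul]
  have hF : ∀ σ : L ≃ₐ[ℚ] L, ∑ z : EE A L, n z * (⟨A z.1, z.2⟩ : Letter L).s j σ =
      ∑ i ∈ S, ∑ ψ : (T i →+* L), c i ψ • trV (T i) (wt (fun i => (A i).Φ) j i) (σ • ψ) := by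
    intro σ
    rw [← hsum (wt (fun i => (A i).Φ) j) σ]
    rfl
  have key := rel_of_small j hB hD (Finset.univ : Finset (EE A L))
    (fun z => (⟨A z.1, z.2⟩ : Letter L)) n (fun τ => by
      refine Eq.trans ?_ (hrel τ)
      rw [← hsum (ww A j P) τ]
      rfl) (fun hne => by
      choose! Nk hNk using hT
      refine small_of_parts (cc_comm j) cc_cc S Nk (fun i hi => (hNk i hi).1)
        (fun i hi => (hNk i hi).2.1)
        (fun i σ => ∑ ψ : (T i →+* L), c i ψ • trV (T i) (wt (fun i => (A i).Φ) j i) (σ • ψ))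
        (fun i hi ν hν g => ?_) _ hF (fun σ => ?_) hne
      · refine Finset.sum_congr rfl fun ψ _ => ?_
        rw [(hNk i hi).2.2 ν hν g ψ]
      · rw [← Finset.sum_neg_distrib]
        refine Finset.sum_congr rfl fun z _ => ?_
        rw [Letter.s_cc]
        ring)
  intro g
  rw [← hsum (ee A j) g]
  have h1 := key g
  have h2 : ((∑ z : EE A L, n z * (⟨A z.1, z.2⟩ : Letter L).s j g : ℤ) : ℚ) = 0 := by
    rw [h1, Int.cast_zero]
  push_cast at h2
  rw [← h2]
  refine Finset.sum_congr rfl fun z _ => ?_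
  rw [zsmul_eq_mul]
  rfl

/-- Sufficient conditions for the relations with two terms. -/
theorem twoTerm_of_red (hB : P.Bost) (hD : P.Deligne)
    (hj : ∀ i, ∀ ψ : (A i).E →+* ℂ, ∃ φ : (A i).E →+* L, j.comp φ = ψ)
    (h1 : ∀ i (T : IntermediateField ℚ (A i).E), NonReal T → RedAct L T ∨
      (∀ ψ ψ' : T →+* L, |tr T (wt (fun i => (A i).Φ) j i) ψ| =
        |tr T (wt (fun i => (A i).Φ) j i) ψ'|) ∨
      ((∀ F ≤ T, NonReal F → F = T) ∧ ∀ ψ ψ' : T →+* L,
        tr T (wt (fun i => (A i).Φ) j i) ψ = 0 ∨ tr T (wt (fun i => (A i).Φ) j i) ψ' = 0 ∨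
        |tr T (wt (fun i => (A i).Φ) j i) ψ| = |tr T (wt (fun i => (A i).Φ) j i) ψ'|))
    (h2 : ∀ i i' (T : IntermediateField ℚ (A i).E) (T' : IntermediateField ℚ (A i').E),
      i ≠ i' → NonReal T → NonReal T' → Nonempty (T ≃+* T') → RedAct L T ∧ RedAct L T') :
    TwoTerm (ww A j P) (ee A j) := by
  classical
  have hκ : ∀ i, ∀ φ : (A i).E →+* L, cc L • φ = cbar φ := fun i φ => cc_smul j φ
  have φ₀ : ∀ i, ((A i).E →+* L) := fun i => (hj i (Classical.arbitrary _)).choose
  have single : ∀ i (T : IntermediateField ℚ (A i).E), NonReal T → ∀ ψ ψ' : T →+* L,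
      (∀ g : L ≃ₐ[ℚ] L, trV T (ww A j P i) (g • ψ) = trV T (ww A j P i) (g • ψ')) →
      ∀ g : L ≃ₐ[ℚ] L, trV T (ee A j i) (g • ψ) = trV T (ee A j i) (g • ψ') := by
    intro i T hT ψ ψ' h g
    by_cases hψ : ψ = ψ'
    · rw [hψ]
    by_cases h0 : RedAct L T ∨ (∀ ψ ψ' : T →+* L, |tr T (wt (fun i => (A i).Φ) j i) ψ| =
        |tr T (wt (fun i => (A i).Φ) j i) ψ'|)
    · have h3 := two_of_small j A hB hD (i := i) (i' := i) (T := T) (T' := T) (ψ := ψ)
        (ψ' := ψ') (m := 1) (n := 1) (fun g => by rw [h g]) (fun hne => by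
          rcases h0 with h4 | h4
          · exact small_of_redAct A j hj 1 1 ψ ψ' h4 h4 hne
          · exact small_of_const j A hj h4 ψ ψ' hne) g
      rwa [one_smul, one_smul] at h3
    · obtain ⟨hmin, hval⟩ := (or_assoc.2 (h1 i T hT)).resolve_left h0
      obtain ⟨F, hF, f, hf1, hf2⟩ := exists_sub_factorX (φ₀ i) T (trV T (ww A j P i))
      obtain ⟨u, rfl⟩ := MulAction.exists_smul_eq (L ≃ₐ[ℚ] L) ψ ψ'
      have h3 := hf2 u ψ (fun g => (h g).symm)
      have hFr : ¬ NonReal F := by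
        intro hFr
        have h4 := finrank_lt (φ₀ i) hF hψ h3.symm
        rw [hmin F hF hFr] at h4
        exact lt_irrefl _ h4
      have hfodd := odd_of_compV (φ₀ i) hF hf1 (trV_odd (φ₀ i) (hκ i) T (ww_odd A j hD i))
      have hW0 : ∀ ψ : T →+* L, trV T (ww A j P i) ψ = 0 := fun ψ => by
        rw [hf1, zero_of_realV (φ₀ i) (hκ i) hFr hfodd]
      have he0 : ∀ (ψ : T →+* L) (g : L ≃ₐ[ℚ] L), trV T (ee A j i) (g • ψ) = 0 := by
        intro ψ g
        have h5 := two_of_small j A hB hD (i := i) (i' := i) (T := T) (T' := T) (ψ := ψ)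
          (ψ' := ψ) (m := 1) (n := 0) (fun g => by rw [hW0, smul_zero, zero_smul])
          (fun hne => small_of_almost A j hj hval ψ hne) g
        rwa [one_smul, zero_smul] at h5
      rw [he0, he0]
  have zero : ∀ i (T : IntermediateField ℚ (A i).E), NonReal T → ∀ ψ : T →+* L,
      (∀ g : L ≃ₐ[ℚ] L, trV T (ww A j P i) (g • ψ) = 0) →
      ∀ g : L ≃ₐ[ℚ] L, trV T (ee A j i) (g • ψ) = 0 := by
    intro i T hT ψ h g
    have h3 := single i T hT ψ (cc L • ψ) (fun g => by
      rw [sub_comm (φ₀ i) (hκ i), trV_odd (φ₀ i) (hκ i) T (ww_odd A j hD i), h g, neg_zero]) g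
    rw [sub_comm (φ₀ i) (hκ i), trV_odd (φ₀ i) (hκ i) T (ee_odd A j i)] at h3
    linarith
  intro T i i' hi hi' ψ ψ' m n hm hn h g
  by_cases hii : i = i'
  · subst hii
    obtain ⟨u, rfl⟩ := MulAction.exists_smul_eq (L ≃ₐ[ℚ] L) ψ ψ'
    have h3 := orbit_propV (trV (T i) (ww A j P i)) ψ u m n hm hn h
    by_cases hmn : m = n
    · rw [hmn, single i (T i) hi ψ (u • ψ) h3 g]
    · have h4 : ∀ g : L ≃ₐ[ℚ] L, trV (T i) (ww A j P i) (g • ψ) = 0 := by
        intro g
        apply zs_cancel (sub_ne_zero.2 hmn)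
        rw [sub_smul, h g, ← h3 g, sub_self]
      have h5 : ∀ g : L ≃ₐ[ℚ] L, trV (T i) (ww A j P i) (g • u • ψ) = 0 := by
        intro g
        rw [← h3 g, h4 g]
      rw [zero i (T i) hi ψ h4 g, zero i (T i) hi (u • ψ) h5 g, smul_zero, smul_zero]
  · obtain ⟨F, hF, f, hf1, hf2⟩ := exists_sub_factorX (φ₀ i) (T i) (trV (T i) (ww A j P i))
    obtain ⟨F', hF', f', hf1', hf2'⟩ :=
      exists_sub_factorX (φ₀ i') (T i') (trV (T i') (ww A j P i'))
    have hfodd := odd_of_compV (φ₀ i) hF hf1 (trV_odd (φ₀ i) (hκ i) (T i) (ww_odd A j hD i))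
    have hfodd' := odd_of_compV (φ₀ i') hF' hf1'
      (trV_odd (φ₀ i') (hκ i') (T i') (ww_odd A j hD i'))
    have hallzero : (∀ g : L ≃ₐ[ℚ] L, trV (T i) (ww A j P i) (g • ψ) = 0) →
        m • trV (T i) (ee A j i) (g • ψ) = n • trV (T i') (ee A j i') (g • ψ') := by
      intro h0
      have h0' : ∀ g : L ≃ₐ[ℚ] L, trV (T i') (ww A j P i') (g • ψ') = 0 := by
        intro g
        apply zs_cancel hn.ne'
        rw [← h g, h0 g, smul_zero]
      rw [zero i (T i) hi ψ h0 g, zero i' (T i') hi' ψ' h0' g, smul_zero, smul_zero]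
    by_cases hFr : NonReal F
    swap
    · exact hallzero fun g => by rw [hf1, zero_of_realV (φ₀ i) (hκ i) hFr hfodd]
    by_cases hFr' : NonReal F'
    swap
    · refine hallzero fun g => zs_cancel hm.ne' ?_
      rw [h g, hf1', zero_of_realV (φ₀ i') (hκ i') hFr' hfodd', smul_zero]
    have hst : ∀ σ : L ≃ₐ[ℚ] L, σ • rs hF ψ = rs hF ψ ↔ σ • rs hF' ψ' = rs hF' ψ' := by
      intro σ
      rw [← rs_smul, ← rs_smul]
      constructor
      · intro hσ
        refine hf2' σ ψ' fun g => ?_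
        have h3 := h (g * σ)
        have h4 := h g
        rw [mul_smul, mul_smul] at h3
        have h5 : trV (T i) (ww A j P i) (g • σ • ψ) = trV (T i) (ww A j P i) (g • ψ) := by
          rw [hf1, hf1, rs_smul hF g (σ • ψ), hσ, rs_smul hF g ψ]
        rw [h5, h4] at h3
        exact (zs_cancel' hn.ne' h3).symm
      · intro hσ
        refine hf2 σ ψ fun g => ?_
        have h3 := h (g * σ)
        have h4 := h g
        rw [mul_smul, mul_smul] at h3
        have h5 : trV (T i') (ww A j P i') (g • σ • ψ') =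
            trV (T i') (ww A j P i') (g • ψ') := by
          rw [hf1', hf1', rs_smul hF' g (σ • ψ'), hσ, rs_smul hF' g ψ']
        rw [h5, ← h4] at h3
        exact zs_cancel' hm.ne' h3
    obtain ⟨hc1, hc2⟩ := h2 i i' F F' hii hFr hFr' (equiv_of_stab' (rs hF ψ) (rs hF' ψ') hst)
    -- the types come from the same subfields
    have hfe : ∀ (i : ι) {T F : IntermediateField ℚ (A i).E} (hT : NonReal T) (hF : F ≤ T)
        (f : (F →+* L) → VV) (hf : ∀ ψ, trV T (ww A j P i) ψ = f (rs hF ψ)),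
        ∃ fe : (F →+* L) → ℚ, ∀ ψ, trV T (ee A j i) ψ = fe (rs hF ψ) := by
      intro i T F hT hF f hf
      have hwd : ∀ ψ ψ' : T →+* L, rs hF ψ = rs hF ψ' →
          trV T (ee A j i) ψ = trV T (ee A j i) ψ' := by
        intro ψ ψ' h
        have h4 := single i T hT ψ ψ' (fun g => by
          rw [hf, hf, rs_smul, rs_smul, h]) 1
        rwa [one_smul, one_smul] at h4
      choose s hs using rs_surjective (L := L) (φ₀ i) hF
      exact ⟨fun χ => trV T (ee A j i) (s χ), fun ψ => hwd _ _ (hs _).symm⟩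
    obtain ⟨fe, hfe1⟩ := hfe i hi hF f hf1
    obtain ⟨fe', hfe1'⟩ := hfe i' hi' hF' f' hf1'
    have hd := dg_pos (φ₀ i) hF
    have hd' := dg_pos (φ₀ i') hF'
    have h3 := two_of_small j A hB hD (i := i) (i' := i') (T := F) (T' := F')
      (ψ := rs hF ψ) (ψ' := rs hF' ψ') (m := m * dg (φ₀ i') hF') (n := n * dg (φ₀ i) hF)
      (fun g => by
        rw [trV_dg (φ₀ i) hF hf1, trV_dg (φ₀ i') hF' hf1', ← rs_smul, ← rs_smul, ← hf1,
          ← hf1', ← mul_smul, ← mul_smul]
        have h5 := h g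
        calc (m * dg (φ₀ i') hF' * dg (φ₀ i) hF) • trV (T i) (ww A j P i) (g • ψ)
            = (dg (φ₀ i') hF' * dg (φ₀ i) hF) • m • trV (T i) (ww A j P i) (g • ψ) := by
              rw [← mul_smul]
              congr 1
              ring
          _ = (n * dg (φ₀ i) hF * dg (φ₀ i') hF') • trV (T i') (ww A j P i') (g • ψ') := by
              rw [h5, ← mul_smul]
              congr 1
              ring)
      (fun hne => small_of_redAct A j hj _ _ _ _ hc1 hc2 hne) g
    rw [trV_dg (φ₀ i) hF hfe1, trV_dg (φ₀ i') hF' hfe1', ← rs_smul, ← rs_smul, ← hfe1,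
      ← hfe1', ← mul_smul, ← mul_smul] at h3
    have hdd : dg (φ₀ i) hF * dg (φ₀ i') hF' ≠ 0 := (mul_pos hd hd').ne'
    apply zs_cancel' hdd
    rw [← mul_smul, ← mul_smul]
    calc (dg (φ₀ i) hF * dg (φ₀ i') hF' * m) • trV (T i) (ee A j i) (g • ψ)
        = (m * dg (φ₀ i') hF' * dg (φ₀ i) hF) • trV (T i) (ee A j i) (g • ψ) := by
          congr 1
          ring
      _ = (n * dg (φ₀ i) hF * dg (φ₀ i') hF') • trV (T i') (ee A j i') (g • ψ') := h3
      _ = _ := by
          congr 1
          ring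

end

section

variable {ι : Type} [Fintype ι] (A : ι → CMPair) {L : Type} [Field L] [NumberField L]
  [IsCMField L] [IsGalois ℚ L] (j : L →+* ℂ) {P : PeriodSystem}
  (hj : ∀ i, ∀ ψ : (A i).E →+* ℂ, ∃ φ : (A i).E →+* L, j.comp φ = ψ)

include hj in
theorem redAct_of {i : ι} {T : IntermediateField ℚ (A i).E} (hT : OddReduced T) :
    RedAct L T := by
  obtain ⟨φ, _⟩ := hj i (Classical.arbitrary _)
  exact exists_redMod j hT (res T φ)

include hj in
theorem twoTerm_of_simpleR (hB : P.Bost) (hD : P.Deligne) (h : SimpleSubfieldsR A) :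
    TwoTermRelations P A := by
  rw [twoTerm_iff A j hj]
  refine twoTerm_of_red A j hB hD hj (fun i T hT => ?_) (fun i i' T T' hii hT hT' hiso => ?_)
  · rcases h.1 i T ((nonReal_iff _).1 hT) with h1 | h1 | ⟨h1, h2⟩
    · exact Or.inl (redAct_of A j hj h1)
    · refine Or.inr (Or.inl fun ψ ψ' => ?_)
      rw [← excess_tr A j hj i, ← excess_tr A j hj i]
      exact h1 _ _
    · refine Or.inr (Or.inr ⟨fun F hF hFr => h1 F hF ((nonReal_iff _).1 hFr), fun ψ ψ' => ?_⟩)
      rw [← excess_tr A j hj i, ← excess_tr A j hj i]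
      by_cases h3 : Short.excess (A i).Φ T (j.comp ψ) = 0
      · exact Or.inl h3
      · by_cases h4 : Short.excess (A i).Φ T (j.comp ψ') = 0
        · exact Or.inr (Or.inl h4)
        · exact Or.inr (Or.inr (h2 _ _ h3 h4))
  · have h1 := (nonReal_iff _).1 hT
    have h2 := (nonReal_iff _).1 hT'
    exact ⟨redAct_of A j hj (h.2 i i' T T' hii h1 h2 hiso),
      redAct_of A j hj (h.2 i' i T' T (Ne.symm hii) h2 h1 ⟨hiso.some.symm⟩)⟩

include hj in
theorem goodSep_of_red (hB : P.Bost) (hD : P.Deligne) (h : ReducedMildOrGood A) :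
    GoodSep A L j P := by
  intro T S hS hT hsep
  rcases h T S hS (fun i hi => (nonReal_iff _).1 (hT i hi)) (separated_of A j hj T S hsep) with
    h1 | h1 | h1
  · exact Or.inr (direct_of_red A j hB hD T S fun i hi => redAct_of A j hj (h1 i hi))
  · exact Or.inl (Or.inl (small_of_mildFamily A j hj T S h1))
  · exact Or.inl (Or.inr (goodFam_of_good (E := fun i => (A i).E) j hj
      (fun x => (emb_cc j x).symm) T S h1))

end

variable {ι : Type} [Fintype ι] (A : ι → CMPair) {P : PeriodSystem}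

/-- The criterion. -/
theorem allHodge_iff_red (hB : P.Bost) (hD : P.Deligne) (hA : ReducedMildOrGood A) :
    AllHodge P A ↔ TwoTermRelations P A := by
  classical
  rcases isEmpty_or_nonempty ι with hι | hι
  · constructor
    · intro _ T i
      exact (hι.false i).elim
    · intro _ J _ t k f hf
      have hJ : IsEmpty J := ⟨fun a => hι.false (t a)⟩
      rcases isEmpty_or_nonempty (Fin (2 * k)) with hκ | ⟨⟨k0⟩⟩
      · exact hodge_unit f
      · have h1 : f = 0 := by
          ext v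
          have h2 : v k0 = 0 := by
            funext i
            exact (hJ.false i).elim
          rw [f.map_coord_zero k0 h2]
          rfl
        rw [h1]
        exact hodge_zero _ _
  obtain ⟨L, _, _, _, _, j, hj⟩ := exists_cm (⟨ι, A⟩ : CMAV)
  have hj' : ∀ i, ∀ ψ : (A i).E →+* ℂ, ∃ φ : (A i).E →+* L, j.comp φ = ψ := hj
  rw [twoTerm_iff A j hj']
  constructor
  · intro hall T i i' hi hi' ψ ψ' m n hm hn hh
    have φ₀ : ∀ i, ((A i).E →+* L) := fun i => (hj' i (Classical.arbitrary _)).choose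
    have hκ : ∀ i, ∀ φ : (A i).E →+* L, cc L • φ = cbar φ := fun i φ => cc_smul j φ
    obtain ⟨m', rfl⟩ := Int.eq_ofNat_of_zero_le hm.le
    obtain ⟨n', rfl⟩ := Int.eq_ofNat_of_zero_le hn.le
    let N : EE A L → ℕ := fun z =>
      (if hz : z.1 = i then (if res (T i) (hz ▸ z.2) = ψ then m' else 0) else 0) +
      (if hz : z.1 = i' then (if res (T i') (hz ▸ z.2) = cc L • ψ' then n' else 0) else 0)
    have hN : ∀ {U : Type} [AddCommGroup U] (u : ∀ i, ((A i).E →+* L) → U) (g : L ≃ₐ[ℚ] L),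
        ∑ z : EE A L, N z • u z.1 (g • z.2) =
          m' • trV (T i) (u i) (g • ψ) + n' • trV (T i') (u i') (g • cc L • ψ') := by
      intro U _ u g
      simp only [N, add_smul, Finset.sum_add_distrib]
      rw [Fintype.sum_sigma, Fintype.sum_sigma]
      have h1 : ∀ (k : ι) (χ : T k →+* L) (p : ℕ), ∑ i, ∑ φ : (A i).E →+* L,
          (if hz : i = k then (if res (T k) (hz ▸ φ) = χ then p else 0) else 0) •
            u i (g • φ) = p • trV (T k) (u k) (g • χ) := by
        intro k χ p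
        rw [Finset.sum_eq_single k]
        · rw [trV_smul]
          unfold trV fsV
          rw [Finset.smul_sum]
          refine Finset.sum_congr rfl fun φ _ => ?_
          rw [dif_pos rfl]
          by_cases h : res (T k) φ = χ
          · rw [if_pos h, if_pos h]
          · rw [if_neg h, if_neg h, zero_smul, smul_zero]
        · intro i _ hik
          refine Finset.sum_eq_zero fun φ _ => ?_
          rw [dif_neg hik, zero_smul]
        · intro h
          exact absurd (Finset.mem_univ _) h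
      rw [← h1 i ψ m', ← h1 i' (cc L • ψ') n']
    have key := rel_of_hodge hall N (fun g => by
      rw [hN (ww A j P) g, sub_comm (φ₀ i') (hκ i'), trV_odd (φ₀ i') (hκ i') (T i')
        (ww_odd A j hD i'), smul_neg]
      have h1 := hh g
      rw [natCast_zsmul, natCast_zsmul] at h1
      rw [h1, add_neg_cancel])
    intro g
    have h1 := key g
    rw [hN (ee A j) g, sub_comm (φ₀ i') (hκ i'), trV_odd (φ₀ i') (hκ i') (T i')
      (ee_odd A j i'), smul_neg, ← sub_eq_add_neg, sub_eq_zero] at h1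
    rw [natCast_zsmul, natCast_zsmul]
    exact h1
  · intro h J _ t k f hf
    exact hodge_of_good hD hj' h (goodSep_of_red A j hj' hB hD hA) t k f hf


theorem twoTerm_of_simpleSubfieldsR (hB : P.Bost) (hD : P.Deligne) (h : SimpleSubfieldsR A) :
    TwoTermRelations P A := by
  classical
  rcases isEmpty_or_nonempty ι with hι | hι
  · intro T i
    exact (hι.false i).elim
  obtain ⟨L, _, _, _, _, j, hj⟩ := exists_cm (⟨ι, A⟩ : CMAV)
  exact twoTerm_of_simpleR A j hj hB hD h

end

end Pool.Agent.H65.CM
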