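import Pool.Agent.H65.CM.Main

/-!
# CM subfields of Galois CM fields with reduced odd rational group algebra
-/

set_option autoImplicit false

namespace Pool.Agent.H65.CM

open NumberField Pool.Agent.H204R3.CM Pool.Agent.W547.KB Pool.Agent.W537.PC Module
  Pool.Agent.W527 Pool.Agent.W527.Struct Pool.Agent.W527.Per

noncomputable section

theorem conj_sq {F : Type} [Field F] [NumberField F] {c : F ≃ₐ[ℚ] F}
    (hc : ∀ φ : F →+* ℂ, φ.comp (c : F →+* F) = ComplexEmbedding.conjugate φ) : c * c = 1 := by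
  ext x
  obtain ⟨φ⟩ : Nonempty (F →+* ℂ) := inferInstance
  apply φ.injective
  have h1 : φ (c (c x)) = starRingEnd ℂ (φ (c x)) := RingHom.congr_fun (hc φ) (c x)
  have h2 : φ (c x) = starRingEnd ℂ (φ x) := RingHom.congr_fun (hc φ) x
  change φ (c (c x)) = φ x
  rw [h1, h2, Complex.conj_conj]

theorem conj_unique {F : Type} [Field F] [NumberField F] {c c' : F ≃ₐ[ℚ] F}
    (hc : ∀ φ : F →+* ℂ, φ.comp (c : F →+* F) = ComplexEmbedding.conjugate φ)
    (hc' : ∀ φ : F →+* ℂ, φ.comp (c' : F →+* F) = ComplexEmbedding.conjugate φ) : c = c' := by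
  ext x
  obtain ⟨φ⟩ : Nonempty (F →+* ℂ) := inferInstance
  apply φ.injective
  exact (RingHom.congr_fun (hc φ) x).trans (RingHom.congr_fun (hc' φ) x).symm

theorem OddReduced.sub {E : Type} [Field E] [NumberField E] [IsCMField E] (hE : OddReduced E)
    {T : IntermediateField ℚ E} (hT : IsCM T) : OddReduced T := by
  classical
  have hGal := hE.1
  obtain ⟨j⟩ : Nonempty (E →+* ℂ) := inferInstance
  have hred : RedGrp (cc E) := hE.2 (cc E) fun φ => by
    ext x
    exact emb_cc φ x
  have hredM : RedMod (cc E) ⊥ := fun x h1 _ h2 => hred x h1 h2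
  obtain ⟨x, hx, hne⟩ := (nonReal_iff T).2 hT
  have hcT : cc E ∉ T.fixingSubgroup := by
    intro h
    exact hne ((IntermediateField.mem_fixingSubgroup_iff T _).1 h x hx)
  have hn : T.fixingSubgroup.Normal :=
    normal_of_not_mem (cc_comm j) cc_cc inferInstance hredM bot_le hcT
  have hTG : IsGalois ℚ T := by
    have h1 := IsGalois.of_fixedField_normal_subgroup T.fixingSubgroup
    rwa [IsGalois.fixedField_fixingSubgroup] at h1
  obtain ⟨ρ, hρs, hρ⟩ := exists_restrict (algebraMap T E)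
  refine ⟨hTG, fun c hc => ?_⟩
  have h1 := conj_of_restrict j (algebraMap T E) ρ hρ
  rw [conj_unique hc h1]
  exact redGrp_of_surj ρ hρs cc_cc hred

theorem OddReduced.of_dicyclic {F : Type} [Field F] [NumberField F] (hF : DicyclicType F) :
    OddReduced F := by
  classical
  obtain ⟨hG, B, hB, hsq⟩ := hF
  exact ⟨hG, fun c hc => redGrp_of_dicyclic (conj_sq hc) B hB fun g hg =>
    conj_unique (hsq g hg) hc⟩

variable {ι : Type} {A : ι → CMPair}

theorem reduced_of_all (h : ∀ i, OddReduced (A i).E) :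
    ReducedMildOrGood A ∧ SimpleSubfieldsR A :=
  ⟨fun T S _ hT _ => Or.inl fun i hi => (h i).sub (hT i hi),
    ⟨fun i T hT => Or.inl ((h i).sub hT), fun i _ T _ _ hT _ _ => (h i).sub hT⟩⟩

end

end Pool.Agent.H65.CM
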