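import Pool.Agent.H65.CM.MixDefs
import Pool.Agent.H65.CM.Subf
import Pool.Graph.R_pool_sql_team_seeded_2aa45f1a.Q306.TP.AngleMain

/-!
# Families of Weil numbers of two kinds: the angle rank
-/

set_option autoImplicit false

namespace Pool.Agent.H65.CM

open Finset NumberField Module Pool.Agent.Y137.MV Pool.Agent.Q306.TP Pool.Agent.Y1.CT
  IntermediateField

noncomputable section

theorem exists_aut_comp {E : Type} [Field E] [NumberField E] [IsGalois ℚ E] (ψ f : E →+* ℂ) :
    ∃ a : E ≃ₐ[ℚ] E, ψ.comp (a : E →+* E) = f := by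
  classical
  have h1 : Function.Bijective (fun a : E ≃ₐ[ℚ] E => ψ.comp (a : E →+* E)) := by
    rw [Fintype.bijective_iff_injective_and_card]
    refine ⟨fun a b hab => ?_, ?_⟩
    · ext y
      exact ψ.injective (RingHom.congr_fun hab y)
    · rw [Embeddings.card, ← Nat.card_eq_fintype_card, IsGalois.card_aut_eq_finrank]
  exact h1.2 f

/-- A field without embeddings into a Galois field. -/
theorem not_le_of_isEmpty {K E : Type} [Field K] [NumberField K] [Field E] [NumberField E]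
    [IsGalois ℚ E] (h : IsEmpty (K →+* E)) :
    ¬ normalClosure ℚ K ℂ ≤ normalClosure ℚ E ℂ := by
  intro hle
  obtain ⟨φ⟩ : Nonempty (K →+* ℂ) := inferInstance
  obtain ⟨ψ⟩ : Nonempty (E →+* ℂ) := inferInstance
  let φ' : K →ₐ[ℚ] ℂ := RingHom.equivRatAlgHom K ℂ φ
  let ψ' : E →ₐ[ℚ] ℂ := RingHom.equivRatAlgHom E ℂ ψ
  have h1 : φ'.fieldRange ≤ normalClosure ℚ K ℂ :=
    AlgHom.fieldRange_le_normalClosure φ'
  have h2 : normalClosure ℚ E ℂ ≤ ψ'.fieldRange := by
    rw [normalClosure_le_iff]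
    intro f
    rintro _ ⟨x, rfl⟩
    obtain ⟨g, hg⟩ := exists_aut_comp ψ (f : E →+* ℂ)
    refine ⟨g x, ?_⟩
    exact RingHom.congr_fun hg x
  have h3 : φ'.fieldRange ≤ ψ'.fieldRange := h1.trans (hle.trans h2)
  have h4 : ∀ x : K, ∃ y : E, ψ y = φ x := fun x => by
    obtain ⟨y, hy⟩ := h3 ⟨x, rfl⟩
    exact ⟨y, hy⟩
  choose f hf using h4
  refine h.false ⟨⟨⟨f, ?_⟩, ?_⟩, ?_, ?_⟩
  · apply ψ.injective
    rw [hf, map_one, map_one]
  · intro x y
    apply ψ.injective
    change ψ (f (x * y)) = ψ (f x * f y)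
    rw [hf, map_mul, map_mul, hf, hf]
  · apply ψ.injective
    change ψ (f 0) = ψ 0
    rw [hf, map_zero, map_zero]
  · intro x y
    apply ψ.injective
    change ψ (f (x + y)) = ψ (f x + f y)
    rw [hf, map_add, map_add, hf, hf]

theorem angle_of_mixed {p a : ℕ} [Fact p.Prime] (ha : 0 < a) {I : Type} [Fintype I] {F : I → Type}
    [∀ i, Field (F i)] [∀ i, NumberField (F i)] [∀ i, IsCMField (F i)] {π : ∀ i, F i}
    (hw : ∀ i, π i * IsCMField.complexConj (F i) (π i) = (p : F i) ^ a) {R : Set I}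
    (h : IsMixedFamily p a R F π) : MaximalAngleRank (p ^ a) π := by
  classical
  obtain ⟨h1, h2, h3, h4, h5⟩ := h
  have hq : p ^ a ≠ 0 := pow_ne_zero _ (Fact.out : p.Prime).ne_zero
  have hw' : ∀ i, π i * IsCMField.complexConj (F i) (π i) = ((p ^ a : ℕ) : F i) := fun i => by
    rw [hw i]
    push_cast
    rfl
  obtain ⟨cS, hcS, hord⟩ := exists_order (I := {i // i ∉ R}) (F := fun i => F i.1)
    (fun i k hik => h4 i.1 i.2 k.1 k.2 fun h => hik (Subtype.ext h))
  let ix : I ≃ Fin (Fintype.card I) := Fintype.equivFin _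
  let c : I → ℕ := fun i => if h : i ∈ R then (ix i : ℕ) else Fintype.card I + cS ⟨i, h⟩
  have hcR : ∀ i, i ∈ R → c i = ix i := fun i hi => dif_pos hi
  have hcN : ∀ i (hi : i ∉ R), c i = Fintype.card I + cS ⟨i, hi⟩ := fun i hi => dif_neg hi
  have hlt : ∀ i, (ix i : ℕ) < Fintype.card I := fun i => (ix i).2
  refine angle_of_order hq hw' c ?_ (fun i k hik ψ => ?_) (fun i => ?_)
  · intro i k hik
    by_cases hi : i ∈ R <;> by_cases hk : k ∈ R
    · rw [hcR i hi, hcR k hk] at hik
      exact ix.injective (Fin.ext hik)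
    · rw [hcR i hi, hcN k hk] at hik
      have := hlt i
      omega
    · rw [hcN i hi, hcR k hk] at hik
      have := hlt k
      omega
    · rw [hcN i hi, hcN k hk] at hik
      exact congrArg Subtype.val (hcS (Nat.add_left_cancel hik))
  · have hki : i ≠ k := by
      rintro rfl
      exact lt_irrefl _ hik
    by_cases hi : i ∈ R <;> by_cases hk : k ∈ R
    · have _ := (h1 i hi).1.1
      have _ := (h1 k hk).1.1
      obtain ⟨τ, e1, e2⟩ := exists_flip (h2 i hi k hk hki)
      exact unrelated_of_flip τ e1 e2 ψ (π k)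
    · rw [hcR i hi, hcN k hk] at hik
      have := hlt i
      omega
    · have _ := (h1 k hk).1.1
      exact unrelated_of_simple (h3 i hi) (not_le_of_isEmpty (h5 i hi k hk).1)
        (h5 i hi k hk).2 ψ _
    · rw [hcN i hi, hcN k hk] at hik
      have hd := h4 i hi k hk hki
      rcases hord ⟨i, hi⟩ ⟨k, hk⟩ (by omega) with h6 | h6
      · exact unrelated_of_simple_degree (h3 i hi) h6 hd.2 ψ _
      · exact unrelated_of_simple (h3 i hi) h6 hd.2 ψ _
  · by_cases hi : i ∈ R
    · exact (angle_iff_noShort (h1 i hi).1 hq (hw' i)).2 (h1 i hi).2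
    · exact angle_of_simple ha (hw' i) (h3 i hi)

end

end Pool.Agent.H65.CM
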