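import Pool.Agent.H65.CM.Defs
import Pool.Agent.H65.CM.Flip
import Pool.Graph.R_pool_sql_team_seeded_2aa45f1a.Q306.TP.AngleDefs

/-!
# Families of Weil numbers of two kinds
-/

set_option autoImplicit false

namespace Pool.Agent.H65.CM

open NumberField Module Pool.Agent.Q306.TP

/-- The Weil numbers `π i`, `i ∈ R`, generate Galois CM fields with reduced odd rational group algebra
and have no short relations, and no two of these fields have a CM field in common; the other `π i` are
simple (irreducible odd functions, or twice an odd prime number as the degree and no Weil relation) and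
different; and if `i ∉ R` and `k ∈ R` then `F i` has no embedding into `F k` and no imaginary quadratic
field in common with it. -/
def IsMixedFamily (p a : ℕ) [Fact p.Prime] {I : Type} (R : Set I) (F : I → Type)
    [∀ i, Field (F i)] [∀ i, NumberField (F i)] (π : ∀ i, F i) : Prop :=
  (∀ i ∈ R, OddReduced (F i) ∧ NoShort (p ^ a) (π i)) ∧
  (∀ i ∈ R, ∀ k ∈ R, i ≠ k → RealIntersection (F i) (F k)) ∧
  (∀ i, i ∉ R → IsSimpleWeil p a (π i)) ∧
  (∀ i, i ∉ R → ∀ k, k ∉ R → i ≠ k → IsDifferent (F i) (F k)) ∧
  ∀ i, i ∉ R → ∀ k ∈ R, IsEmpty (F i →+* F k) ∧ ¬ CommonImaginary (F i) (F k)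

end Pool.Agent.H65.CM
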