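import Pool.Agent.H65.CM.Mix
import Pool.Graph.R_seed8.Y1.CT.Kun
import Pool.Graph.R_seed8.Y1.CT.Rel

/-!
# Maximal angle rank and products with independent numbers
-/

set_option autoImplicit false

namespace Pool.Agent.H65.CM

open Finset NumberField Module Polynomial Pool.Agent.Y137.MV Pool.Agent.Q306.TP Pool.Agent.Y1.CT
  Pool.Agent.W484.HS

noncomputable section

theorem unrelated_of_independent {I : Type} {K : I → Type} [∀ i, Field (K i)] {ρ : ℂ}
    (h : Independent K ρ) : Unrelated K ρ := by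
  refine ⟨h.1, fun i n hn hinv => ?_⟩
  funext ψ
  obtain ⟨τ, m, hm, hτ, hc⟩ := h.2 i ψ
  have h1 := hinv τ ⟨m, hm, hτ⟩ ψ
  have h2 : (τ : ℂ →+* ℂ).comp ψ = ComplexEmbedding.conjugate ψ := by
    ext x
    exact hc x
  rw [h2, hn] at h1
  change n ψ = 0
  linarith

variable {I : Type} [Fintype I] {K : I → Type} [∀ i, Field (K i)] [∀ i, NumberField (K i)]
  [∀ i, IsCMField (K i)] {q : ℕ} {π : ∀ i, K i}

/-- There are no relations with unrelated numbers if the angle rank is maximal. -/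
theorem exactPair_angle (hq : q ≠ 0)
    (hw : ∀ i, π i * IsCMField.complexConj (K i) (π i) = (q : K i))
    (hang : MaximalAngleRank q π) (f : I → ℤ[X]) (hf : ∀ i, IsPolyOf (π i) (f i)) (s : ℕ)
    (hs : 0 < s) (ρ : ℂ) (hρ : Unrelated K ρ) :
    ExactPairK (fun z : Root f => (z : ℂ) ^ s) ((q : ℂ) ^ s) ρ := by
  classical
  intro n c N hN hn ys hlen hrel hpw
  have hq0 : (q : ℂ) ≠ 0 := Nat.cast_ne_zero.2 hq
  have hv : ∀ y : Σ i, (K i →+* ℂ), y.2 (π y.1) ≠ 0 := by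
    intro y
    refine (_root_.map_ne_zero _).2 fun h0 => ?_
    have h1 := hw y.1
    rw [h0, zero_mul] at h1
    exact Nat.cast_ne_zero.2 hq h1.symm
  have hz : ∀ z : Root f, ∃ y : Σ i, (K i →+* ℂ), y.2 (π y.1) = z := by
    rintro ⟨z, i, hi⟩
    obtain ⟨φ, hφ⟩ := (hf i).2 z hi
    exact ⟨⟨i, φ⟩, hφ⟩
  choose idx hidx using hz
  let cnt : (Σ i, (K i →+* ℂ)) → ℕ := fun y => (ys.map idx).count y
  -- the product over the list
  have hlist : ∀ G : (Σ i, (K i →+* ℂ)) → ℂ, ((ys.map idx).map G).prod = ∏ y, G y ^ cnt y := by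
    intro G
    rw [Finset.prod_list_map_count]
    refine Finset.prod_subset (Finset.subset_univ _) fun y _ hy => ?_
    rw [List.mem_toFinset] at hy
    rw [List.count_eq_zero_of_not_mem hy, pow_zero]
  have hP : (ys.map (fun z : Root f => (z : ℂ) ^ s)).prod =
      ∏ y : Σ i, (K i →+* ℂ), ((y.2 (π y.1)) ^ s) ^ cnt y := by
    rw [← hlist, List.map_map]
    congr 1
    refine List.map_congr_left fun z _ => ?_
    simp only [Function.comp_apply, hidx]
  -- the exponents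
  let m : (Σ i, (K i →+* ℂ)) → ℤ := fun y => ((s * cnt y * N : ℕ) : ℤ)
  have hm : (∏ y : Σ i, (K i →+* ℂ), (y.2 (π y.1)) ^ m y) * ρ ^ N = ((q : ℂ) ^ s) ^ (c * N) := by
    rw [mul_pow, hP, ← Finset.prod_pow, ← zpow_natCast ((((q : ℂ) ^ s) ^ c)), ← zpow_mul] at hrel
    rw [← hrel]
    congr 1
    refine Finset.prod_congr rfl fun y _ => ?_
    simp only [m]
    rw [zpow_natCast, ← pow_mul, ← pow_mul, mul_assoc]
  -- the odd part of the exponents
  let o : ∀ i, (K i →+* ℂ) → ℚ := fun i φ => (m ⟨i, φ⟩ : ℚ) - m ⟨i, ComplexEmbedding.conjugate φ⟩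
  have hodd : ∀ i φ, o i (ComplexEmbedding.conjugate φ) = - o i φ := by
    intro i φ
    simp only [o, cconj]
    ring
  have hkey : ∀ (τ : ℂ ≃+* ℂ), (∃ k : ℕ, 0 < k ∧ τ (ρ ^ k) = ρ ^ k) →
      ∀ i (φ : K i →+* ℂ), o i ((τ : ℂ →+* ℂ).comp φ) = o i φ := by
    rintro τ ⟨k, hk, hτ⟩ i φ
    let e : (Σ i, (K i →+* ℂ)) ≃ (Σ i, (K i →+* ℂ)) := Equiv.sigmaCongrRight fun i =>
      { toFun := fun φ => (τ : ℂ →+* ℂ).comp φ
        invFun := fun φ => (τ.symm : ℂ →+* ℂ).comp φ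
        left_inv := fun φ => by ext x; simp
        right_inv := fun φ => by ext x; simp }
    -- the relation and its image
    have h1 : (∏ y : Σ i, (K i →+* ℂ), (y.2 (π y.1)) ^ (m y * k)) * ρ ^ (N * k) =
        ((q : ℂ) ^ s) ^ (c * N * k) := by
      rw [zpow_mul, ← hm, zpow_natCast, mul_pow, ← pow_mul, ← Finset.prod_pow]
      congr 1
      refine Finset.prod_congr rfl fun y _ => ?_
      rw [zpow_mul, zpow_natCast]
    have h2 : (∏ y : Σ i, (K i →+* ℂ), (y.2 (π y.1)) ^ (m (e.symm y) * k)) * ρ ^ (N * k) =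
        ((q : ℂ) ^ s) ^ (c * N * k) := by
      have h3 := congrArg τ h1
      rw [map_mul, map_prod, mul_comm N k, pow_mul, map_pow, hτ, ← pow_mul] at h3
      rw [mul_comm N k]
      have h4 : τ (((q : ℂ) ^ s) ^ (c * N * k)) = ((q : ℂ) ^ s) ^ (c * N * k) := by
        rw [map_zpow₀, map_pow, map_natCast]
      rw [h4] at h3
      rw [← h3]
      congr 1
      rw [← Equiv.prod_comp e]
      refine Finset.prod_congr rfl fun y _ => ?_
      rw [Equiv.symm_apply_apply, map_zpow₀]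
      rfl
    have hρ0 : ρ ^ (N * k) ≠ 0 := pow_ne_zero _ hρ.1
    have h5 : ∏ y : Σ i, (K i →+* ℂ), (y.2 (π y.1)) ^ (m y * k - m (e.symm y) * k) =
        (q : ℂ) ^ (0 : ℤ) := by
      rw [Finset.prod_congr rfl fun y _ => zpow_sub₀ (hv y) _ _, Finset.prod_div_distrib, zpow_zero]
      rw [div_eq_one_iff_eq (Finset.prod_ne_zero_iff.2 fun y _ => zpow_ne_zero _ (hv y))]
      exact mul_right_cancel₀ hρ0 (h1.trans h2.symm)
    have h6 := hang 0 _ h5 i ((τ : ℂ →+* ℂ).comp φ)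
    have h7 : e.symm (⟨i, (τ : ℂ →+* ℂ).comp φ⟩ : Σ i, (K i →+* ℂ)) = ⟨i, φ⟩ := by
      rw [Equiv.symm_apply_eq]
      rfl
    have h8 : e.symm (⟨i, ComplexEmbedding.conjugate ((τ : ℂ →+* ℂ).comp φ)⟩ :
        Σ i, (K i →+* ℂ)) = ⟨i, ComplexEmbedding.conjugate φ⟩ := by
      rw [Equiv.symm_apply_eq, ← Pool.Agent.TH170.QC.comp_conj τ φ]
      rfl
    rw [h7, h8] at h6
    have hk0 : (k : ℚ) ≠ 0 := by exact_mod_cast hk.ne'
    have h9 : ((m ⟨i, (τ : ℂ →+* ℂ).comp φ⟩ : ℚ) - m ⟨i, φ⟩) * k =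
        ((m ⟨i, ComplexEmbedding.conjugate ((τ : ℂ →+* ℂ).comp φ)⟩ : ℚ) -
          m ⟨i, ComplexEmbedding.conjugate φ⟩) * k := by
      have h10 := congrArg (fun z : ℤ => (z : ℚ)) h6
      push_cast at h10
      linear_combination h10
    have h10 := mul_right_cancel₀ hk0 h9
    simp only [o]
    linear_combination h10
  have hzero : ∀ i φ, o i φ = 0 := fun i φ =>
    congrFun ((hρ.2 i) (o i) (hodd i) (fun τ hτ φ => hkey τ hτ i φ)) φ
  have hcnt : ∀ i φ, cnt ⟨i, φ⟩ = cnt ⟨i, ComplexEmbedding.conjugate φ⟩ := by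
    intro i φ
    have h1 := hzero i φ
    simp only [o, m] at h1
    have h2 : ((s * cnt ⟨i, φ⟩ * N : ℕ) : ℚ) =
        ((s * cnt ⟨i, ComplexEmbedding.conjugate φ⟩ * N : ℕ) : ℚ) := by
      have h3 := sub_eq_zero.1 h1
      exact_mod_cast h3
    have h3 : s * cnt ⟨i, φ⟩ * N = s * cnt ⟨i, ComplexEmbedding.conjugate φ⟩ * N := by
      exact_mod_cast h2
    exact Nat.eq_of_mul_eq_mul_left hs (Nat.eq_of_mul_eq_mul_right hN h3)
  obtain ⟨z₀, hz₀⟩ := List.exists_mem_of_length_pos (by rw [hlen]; exact hn)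
  have h1 : 0 < cnt (idx z₀) := List.count_pos_iff.2 (List.mem_map_of_mem hz₀)
  have h2 : 0 < cnt ⟨(idx z₀).1, ComplexEmbedding.conjugate (idx z₀).2⟩ := by
    rw [← hcnt]
    exact h1
  obtain ⟨z₁, hz₁, hz₁'⟩ := List.mem_map.1 (List.count_pos_iff.1 h2)
  have hne : z₀ ≠ z₁ := by
    rintro rfl
    have h3 := congrArg (fun y : Σ i, (K i →+* ℂ) => y.2 (π y.1)) hz₁'
    have h4 : (idx z₀).2 = ComplexEmbedding.conjugate (idx z₀).2 := by
      have h5 : (⟨(idx z₀).1, (idx z₀).2⟩ : Σ i, (K i →+* ℂ)) =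
          ⟨(idx z₀).1, ComplexEmbedding.conjugate (idx z₀).2⟩ := hz₁'
      exact eq_of_heq (Sigma.mk.inj_iff.1 h5).2
    exact IsTotallyComplex.complexEmbedding_not_isReal (idx z₀).2
      (ComplexEmbedding.isReal_iff.2 h4.symm)
  have hsym : Std.Symm (fun y y' : Root f => (fun z : Root f => (z : ℂ) ^ s) y *
      (fun z : Root f => (z : ℂ) ^ s) y' ≠ (q : ℂ) ^ s) := ⟨fun y y' h => by rwa [mul_comm]⟩
  refine hpw.forall hz₀ hz₁ hne ?_
  simp only
  rw [← mul_pow, ← hidx z₀, ← hidx z₁, hz₁']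
  congr 1
  change (idx z₀).2 (π (idx z₀).1) * ComplexEmbedding.conjugate (idx z₀).2 (π (idx z₀).1) = q
  rw [ComplexEmbedding.conjugate_coe_eq, ← IsCMField.complexEmbedding_complexConj, ← map_mul,
    hw, map_natCast]

/-- There are no relations with unrelated numbers. -/
theorem noRel_unrelated (hq : q ≠ 0)
    (hw : ∀ i, π i * IsCMField.complexConj (K i) (π i) = (q : K i))
    (hang : MaximalAngleRank q π) {f : I → ℤ[X]} (hf : ∀ i, IsPolyOf (π i) (f i))
    {R : ℂ → Prop} (h1 : R 1) (hR : ∀ ρ, R ρ → Unrelated K ρ) : NoRel f q R :=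
  ⟨fun i => (hf i).1, h1, fun s hs ρ hρ => exactPair_angle hq hw hang f hf s hs ρ (hR ρ hρ)⟩

theorem independent_one {I : Type} (K : I → Type) [∀ i, Field (K i)] : Independent K 1 :=
  ⟨one_ne_zero, fun i ψ => ⟨(starRingAut : ℂ ≃+* ℂ), 1, one_pos, by simp, fun x => rfl⟩⟩

theorem noRel_angle (hq : q ≠ 0)
    (hw : ∀ i, π i * IsCMField.complexConj (K i) (π i) = (q : K i))
    (hang : MaximalAngleRank q π) {f : I → ℤ[X]} (hf : ∀ i, IsPolyOf (π i) (f i)) :
    NoRel f q (Independent K) :=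
  noRel_unrelated hq hw hang hf (independent_one K) fun _ h => unrelated_of_independent h

end

end Pool.Agent.H65.CM
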