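import Pool.Agent.H65.CM.Field
import Pool.Graph.R_pool_sql_team_seeded_2aa45f1a.Q306.TP.AngleOne

/-!
# Short relations between the conjugates of a Weil number
-/

set_option autoImplicit false

namespace Pool.Agent.H65.CM

open Finset NumberField Module Pool.Agent.Y137.MV Pool.Agent.Q306.TP Pool.Agent.Y1.CT
  Pool.Agent.W547.KB

noncomputable section

/-- There are no short relations between the conjugates of the Weil number `π` (for `q`): if `S` is a
nonempty set of complex embeddings which contains at most one embedding of each pair of conjugate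
embeddings, then no positive power of the square of the product of the `φ π`, `φ ∈ S`, is the
expected power of `q`. -/
def NoShort (q : ℕ) {K : Type} [Field K] (π : K) : Prop :=
  ∀ S : Finset (K →+* ℂ), S.Nonempty → (∀ φ ∈ S, ComplexEmbedding.conjugate φ ∉ S) →
    ∀ s : ℕ, 0 < s → (∏ φ ∈ S, φ π) ^ (2 * s) ≠ (q : ℂ) ^ (S.card * s)

/-- Stable spaces of odd functions contain functions with the values `0`, `1`, `-1`. -/
theorem exists_small_of_stable {K : Type} [Field K] [NumberField K] [IsCMField K]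
    (hK : OddReduced K) (W : Submodule ℚ ((K →+* ℂ) → ℚ)) (hodd : ∀ n ∈ W, IsOdd n)
    (hst : ∀ τ : ℂ ≃+* ℂ, ∀ n ∈ W, (fun φ => n ((τ : ℂ →+* ℂ).comp φ)) ∈ W) (hne : W ≠ ⊥) :
    ∃ m ∈ W, m ≠ 0 ∧ ∀ φ, m φ = 0 ∨ m φ = 1 ∨ m φ = -1 := by
  classical
  have hGal := hK.1
  obtain ⟨φ₀⟩ : Nonempty (K →+* ℂ) := inferInstance
  have hcc : cc K * cc K = 1 := cc_cc
  have hc : ∀ g, cc K * g = g * cc K := cc_comm φ₀
  have hred : RedGrp (cc K) := hK.2 (cc K) fun φ => by
    ext x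
    exact emb_cc φ x
  have hredM : RedMod (cc K) ⊥ := fun x h1 _ h2 => hred x h1 h2
  have hsurj : ∀ φ : K →+* ℂ, ∃ g : K ≃ₐ[ℚ] K, φ = φ₀.comp (g : K →+* K) := by
    intro φ
    obtain ⟨g, hg⟩ := comp_surjective φ₀ φ
    exact ⟨g, hg.symm⟩
  obtain ⟨n, hn, hn0⟩ := Submodule.exists_mem_ne_zero_of_ne_bot hne
  -- the automorphisms
  have hlift : ∀ u : K ≃ₐ[ℚ] K, ∃ τ : ℂ ≃+* ℂ, ∀ x, τ (φ₀ x) = φ₀ (u x) := fun u =>
    Pool.Agent.H977R3.CM.exists_aut φ₀ (u : K ≃+* K)
  choose τ hτ using hlift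
  let b : MonoidAlgebra ℚ (K ≃ₐ[ℚ] K) :=
    ∑ g, n (φ₀.comp ((g⁻¹ : K ≃ₐ[ℚ] K) : K →+* K)) • MonoidAlgebra.single g (1 : ℚ)
  have hb : ∀ g, b.coeff g = n (φ₀.comp ((g⁻¹ : K ≃ₐ[ℚ] K) : K →+* K)) := fun g =>
    coeff_of_sum (fun g => n (φ₀.comp ((g⁻¹ : K ≃ₐ[ℚ] K) : K →+* K))) g
  have hbo : OddEl (cc K) b := by
    refine odd_of_coeff hcc fun g => ?_
    rw [hb, hb, ← hodd n hn]
    congr 1
    have h1 : (cc K * g)⁻¹ = cc K * g⁻¹ := by
      rw [mul_inv_rev, inv_eq_of_mul_eq_one_left hcc, hc]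
    rw [h1]
    exact comp_cc φ₀ g⁻¹
  have hb0 : b ≠ 0 := by
    intro h0
    apply hn0
    funext φ
    obtain ⟨g, rfl⟩ := hsurj φ
    have h1 := hb g⁻¹
    rw [h0, inv_inv] at h1
    exact h1.symm
  obtain ⟨y, hy0, hyv⟩ := smallQ_of_red hc hcc inferInstance hredM hbo (N := ⊥)
    (fun u hu => by
      rw [Subgroup.mem_bot.1 hu]
      exact mul_one b) hb0
  refine ⟨∑ u, y.coeff u • (fun φ => n ((τ u : ℂ →+* ℂ).comp φ)), ?_, ?_, ?_⟩
  · exact Submodule.sum_mem _ fun u _ => W.smul_mem _ (hst (τ u) n hn)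
  · intro h0
    apply hy0
    ext g
    have h1 := congrFun h0 (φ₀.comp ((g⁻¹ : K ≃ₐ[ℚ] K) : K →+* K))
    rw [coeff_mul_sum]
    rw [Finset.sum_apply] at h1
    refine Eq.trans (Finset.sum_congr rfl fun u _ => ?_) h1
    rw [hb, Pi.smul_apply, smul_eq_mul, mul_comm]
    congr 2
    ext x
    change φ₀ ((g * u⁻¹)⁻¹ x) = τ u (φ₀ (g⁻¹ x))
    rw [hτ, mul_inv_rev, inv_inv]
    rfl
  · intro φ
    obtain ⟨g, rfl⟩ := hsurj φ
    have h1 : (∑ u, y.coeff u • (fun φ => n ((τ u : ℂ →+* ℂ).comp φ)))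
        (φ₀.comp (g : K →+* K)) = (b * y).coeff g⁻¹ := by
      rw [coeff_mul_sum, Finset.sum_apply]
      refine Finset.sum_congr rfl fun u _ => ?_
      rw [hb, Pi.smul_apply, smul_eq_mul, mul_comm]
      congr 2
      ext x
      change τ u (φ₀ (g x)) = φ₀ ((g⁻¹ * u⁻¹)⁻¹ x)
      rw [hτ, mul_inv_rev, inv_inv, inv_inv]
      rfl
    rw [h1]
    exact hyv _

variable {K : Type} [Field K] [NumberField K] [IsCMField K] {π : K} {q : ℕ}

omit [IsCMField K] in
theorem noShort_of_angle (h : MaximalAngleRank q (fun _ : Unit => π)) : NoShort q π := by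
  classical
  intro S hS hbar s hs heq
  obtain ⟨φ, hφ⟩ := hS
  have h1 := h ((S.card * s : ℕ) : ℤ) (fun x => if x.2 ∈ S then ((2 * s : ℕ) : ℤ) else 0) (by
    rw [Fintype.prod_sigma]
    simp only [Finset.univ_unique, Finset.prod_singleton]
    rw [zpow_natCast, ← heq, ← Finset.prod_pow, ← Finset.prod_subset (Finset.subset_univ S)]
    · refine Finset.prod_congr rfl fun ψ hψ => ?_
      rw [if_pos hψ, zpow_natCast]
    · intro ψ _ hψ
      rw [if_neg hψ, zpow_zero]) () φ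
  simp only [if_pos hφ, if_neg (hbar φ hφ)] at h1
  have h2 : (2 * s : ℕ) = 0 := by exact_mod_cast h1
  omega

theorem noRel_of_noShort (hq : q ≠ 0) (hw : π * IsCMField.complexConj K π = (q : K))
    (hshort : NoShort q π) (m : (K →+* ℂ) → ℚ) (hodd : IsOdd m)
    (hval : ∀ φ, m φ = 0 ∨ m φ = 1 ∨ m φ = -1) (hrel : Rel (fun φ : K →+* ℂ => φ π) m) :
    m = 0 := by
  classical
  by_contra hne
  obtain ⟨N, a, s, hN, hs, h2, h3⟩ := hrel
  have hv := val_ne_zero hq hw
  let S : Finset (K →+* ℂ) := Finset.univ.filter fun φ => m φ = 1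
  have hSmem : ∀ φ, φ ∈ S ↔ m φ = 1 := fun φ => by simp [S]
  have hSne : S.Nonempty := by
    obtain ⟨φ, hφ⟩ := Function.ne_iff.1 hne
    rcases hval φ with h | h | h
    · exact absurd h hφ
    · exact ⟨φ, (hSmem φ).2 h⟩
    · refine ⟨ComplexEmbedding.conjugate φ, (hSmem _).2 ?_⟩
      rw [hodd, h, neg_neg]
  have hbar : ∀ φ ∈ S, ComplexEmbedding.conjugate φ ∉ S := by
    intro φ hφ h
    rw [hSmem] at hφ h
    rw [hodd, hφ] at h
    norm_num at h
  let P : ℂ := ∏ φ ∈ S, φ π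
  let P' : ℂ := ∏ φ ∈ S, ComplexEmbedding.conjugate φ π
  have hPP : P * P' = (q : ℂ) ^ S.card := by
    change (∏ φ ∈ S, φ π) * ∏ φ ∈ S, ComplexEmbedding.conjugate φ π = _
    rw [← Finset.prod_mul_distrib, Finset.prod_congr rfl fun φ _ => conj_mul hw φ,
      Finset.prod_const]
  have hP0 : P ≠ 0 := Finset.prod_ne_zero_iff.2 fun φ _ => hv φ
  have hP0' : P' ≠ 0 := Finset.prod_ne_zero_iff.2 fun φ _ => hv _
  have ha : ∀ φ, φ π ^ a φ = (if m φ = 1 then φ π else 1) ^ N *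
      ((if m φ = -1 then φ π else 1) ^ N)⁻¹ := by
    intro φ
    have h4 := h2 φ
    rcases hval φ with h | h | h
    · rw [h, mul_zero] at h4
      have h5 : a φ = 0 := by exact_mod_cast h4
      rw [h5, zpow_zero, if_neg (by rw [h]; norm_num), if_neg (by rw [h]; norm_num), one_pow,
        inv_one, mul_one]
    · rw [h, mul_one] at h4
      have h5 : a φ = N := by exact_mod_cast h4
      rw [h5, zpow_natCast, if_pos h, if_neg (by rw [h]; norm_num), one_pow, inv_one, mul_one]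
    · rw [h, mul_neg, mul_one] at h4
      have h5 : a φ = -(N : ℤ) := by exact_mod_cast h4
      rw [h5, zpow_neg, zpow_natCast, if_neg (by rw [h]; norm_num), if_pos h, one_pow, one_mul]
  have hprod : ∏ φ : K →+* ℂ, φ π ^ a φ = P ^ N * (P' ^ N)⁻¹ := by
    rw [Finset.prod_congr rfl fun φ _ => ha φ, Finset.prod_mul_distrib, Finset.prod_pow,
      Finset.prod_inv_distrib, Finset.prod_pow]
    congr 2
    · exact (Finset.prod_filter _ _).symm
    · congr 1
      let eb : Equiv.Perm (K →+* ℂ) :=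
        ⟨ComplexEmbedding.conjugate, ComplexEmbedding.conjugate, cconj, cconj⟩
      rw [← Equiv.prod_comp eb]
      change ∏ φ : K →+* ℂ, (if m (ComplexEmbedding.conjugate φ) = -1 then
        ComplexEmbedding.conjugate φ π else 1) = ∏ φ ∈ S, ComplexEmbedding.conjugate φ π
      have h6 : S = Finset.univ.filter fun φ => m (ComplexEmbedding.conjugate φ) = -1 := by
        ext φ
        rw [hSmem, Finset.mem_filter, hodd, neg_inj]
        simp
      rw [h6, Finset.prod_filter]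
  have h5 : P ^ (N * s) = P' ^ (N * s) := by
    have h6 : (P ^ N * (P' ^ N)⁻¹) ^ s = 1 := by
      rw [← hprod]
      exact h3
    rw [mul_pow, inv_pow, ← pow_mul, ← pow_mul] at h6
    exact (mul_inv_eq_one₀ (pow_ne_zero _ hP0')).1 h6
  apply hshort S hSne hbar (N * s) (Nat.mul_pos hN hs)
  change P ^ (2 * (N * s)) = _
  rw [two_mul, pow_add]
  nth_rewrite 2 [h5]
  rw [← mul_pow, hPP, ← pow_mul]

/-- **The angle rank is maximal if and only if there are no short relations.** -/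
theorem angle_iff_noShort (hK : OddReduced K) (hq : q ≠ 0)
    (hw : π * IsCMField.complexConj K π = (q : K)) :
    MaximalAngleRank q (fun _ : Unit => π) ↔ NoShort q π := by
  classical
  refine ⟨noShort_of_angle, fun h => angle_of_noRel hq hw fun f hf hrel => ?_⟩
  by_contra hf0
  have hv := val_ne_zero hq hw
  obtain ⟨m, hm, hm0, hmv⟩ := exists_small_of_stable hK
    (RR (fun φ : K →+* ℂ => φ π) hv ComplexEmbedding.conjugate) (fun n hn => hn.1)
    (fun τ n hn => RR_stable π hv τ n hn) (by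
      intro h0
      have h1 : f ∈ RR (fun φ : K →+* ℂ => φ π) hv ComplexEmbedding.conjugate := ⟨hf, hrel⟩
      rw [h0, Submodule.mem_bot] at h1
      exact hf0 h1)
  exact hm0 (noRel_of_noShort hq hw h m hm.1 hmv hm.2)

end

end Pool.Agent.H65.CM
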