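import Pool.Agent.H65.CM.Alg
import Pool.Agent.H65.CM.Grp
import Pool.Graph.R_seed8.W527.VTwo

/-!
# Small elements of right ideals of rational group algebras without odd nilpotents
-/

set_option autoImplicit false

namespace Pool.Agent.H65.CM

open Finset MonoidAlgebra

noncomputable section

variable {G : Type} [Group G] [Fintype G]

/-- Some element of the right ideal of `b` is nonzero, with coefficients `0`, `1`, `-1`. -/
def SmallQ (b : MonoidAlgebra ℚ G) : Prop :=
  ∃ y, b * y ≠ 0 ∧ ∀ g, (b * y).coeff g = 0 ∨ (b * y).coeff g = 1 ∨ (b * y).coeff g = -1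

omit [Fintype G] in
theorem SmallQ.of_mul {b z : MonoidAlgebra ℚ G} (h : SmallQ (b * z)) : SmallQ b := by
  obtain ⟨y, h1, h2⟩ := h
  rw [mul_assoc] at h1 h2
  exact ⟨z * y, h1, h2⟩

omit [Group G] in
theorem exists_int (v : G → ℚ) : ∃ (D : ℕ) (z : G → ℤ), 0 < D ∧ ∀ g, ((z g : ℤ) : ℚ) = D * v g := by
  classical
  have h : ∀ g, ∃ z : ℤ, (z : ℚ) = ((∏ g, (v g).den : ℕ) : ℚ) * v g := by
    intro g
    obtain ⟨k, hk⟩ := Finset.dvd_prod_of_mem (fun g => (v g).den) (Finset.mem_univ g)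
    refine ⟨(v g).num * k, ?_⟩
    rw [hk]
    push_cast
    have h1 := Rat.mul_den_eq_num (v g)
    rw [← h1]
    ring
  choose z hz using h
  exact ⟨∏ g, (v g).den, z, Finset.prod_pos fun g _ => (v g).den_pos, hz⟩

open Classical in
/-- The cosets which meet the support. -/
def cos (A : Subgroup G) (f : MonoidAlgebra ℚ G) : Finset (G ⧸ A) :=
  (Finset.univ.filter fun g : G => f.coeff g ≠ 0).image (fun g => (g : G ⧸ A))

theorem mem_cos {A : Subgroup G} {f : MonoidAlgebra ℚ G} {q : G ⧸ A} :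
    q ∈ cos A f ↔ ∃ g : G, f.coeff g ≠ 0 ∧ (g : G ⧸ A) = q := by
  classical
  unfold cos
  rw [Finset.mem_image]
  simp

theorem card_cos_shift {A : Subgroup G} (hA : A.Normal) (f : MonoidAlgebra ℚ G) (k : G) :
    (cos A (f * single k 1)).card = (cos A f).card := by
  classical
  have h : cos A (f * single k 1) = (cos A f).image (fun q => q * (k : G ⧸ A)) := by
    ext q
    rw [mem_cos, Finset.mem_image]
    constructor
    · rintro ⟨g, hg, rfl⟩
      rw [coeff_mul_single_apply, mul_one] at hg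
      refine ⟨((g * k⁻¹ : G) : G ⧸ A), mem_cos.2 ⟨g * k⁻¹, hg, rfl⟩, ?_⟩
      rw [← QuotientGroup.mk_mul, inv_mul_cancel_right]
    · rintro ⟨q, hq, rfl⟩
      obtain ⟨g, hg, rfl⟩ := mem_cos.1 hq
      refine ⟨g * k, ?_, rfl⟩
      rw [coeff_mul_single_apply, mul_one, mul_inv_cancel_right]
      exact hg
  rw [h, Finset.card_image_of_injective]
  intro q q' hqq
  exact mul_right_cancel hqq

theorem ne_zero_iff {f : MonoidAlgebra ℚ G} : f ≠ 0 ↔ ∃ g, f.coeff g ≠ 0 := by
  constructor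
  · intro h
    by_contra hcon
    push Not at hcon
    apply h
    ext g
    exact hcon g
  · rintro ⟨g, hg⟩ rfl
    exact hg rfl

variable {c : G} {N : Subgroup G}

theorem exists_supported (hc : ∀ g, c * g = g * c) (hcc : c * c = 1) (hN : N.Normal)
    (hred : RedMod c N) {b : MonoidAlgebra ℚ G} (ho : OddEl c b) (hi : InvEl N b)
    (hcrit : ∀ M : Subgroup G, M.Normal → N ≤ M → N ≠ M → c ∉ M → b * SS M = 0)
    {A : Subgroup G} (hA : A.Normal) (hNA : N ≤ A)
    (hAc : ∀ a ∈ A, ∀ b ∈ A, a * b * a⁻¹ * b⁻¹ ∈ N)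
    (hAs : ∀ g, (∀ a ∈ A, g * a * g⁻¹ * a⁻¹ ∈ N) → g ∈ A) :
    ∀ (n : ℕ) (f : MonoidAlgebra ℚ G), (∃ y, f = b * y) → f ≠ 0 → (cos A f).card = n →
      ∃ f' : MonoidAlgebra ℚ G, (∃ y, f' = b * y) ∧ f' ≠ 0 ∧ ∀ g, g ∉ A → f'.coeff g = 0 := by
  classical
  intro n
  induction n using Nat.strong_induction_on with
  | _ n ih =>
  intro f₀ hf₀ hne₀ hcard₀
  -- normalise
  obtain ⟨f, hf, hf1, hcard⟩ : ∃ f : MonoidAlgebra ℚ G, (∃ y, f = b * y) ∧ f.coeff 1 ≠ 0 ∧
      (cos A f).card = n := by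
    obtain ⟨g, hg⟩ := ne_zero_iff.1 hne₀
    obtain ⟨y, rfl⟩ := hf₀
    refine ⟨b * y * single g⁻¹ 1, ⟨y * single g⁻¹ 1, mul_assoc _ _ _⟩, ?_, ?_⟩
    · rw [coeff_mul_single_apply, mul_one, inv_inv, one_mul]
      exact hg
    · rw [card_cos_shift hA, hcard₀]
  have hfodd : OddEl c f := by
    obtain ⟨y, rfl⟩ := hf
    exact ho.mul_right y
  have hfinv : InvEl N f := by
    obtain ⟨y, rfl⟩ := hf
    exact hi.mul_right hN y
  have hfcrit : ∀ M : Subgroup G, M.Normal → N ≤ M → N ≠ M → c ∉ M → f * SS M = 0 := by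
    obtain ⟨y, rfl⟩ := hf
    intro M h1 h2 h3 h4
    rw [mul_assoc, SS_comm h1, ← mul_assoc, hcrit M h1 h2 h3 h4, zero_mul]
  by_cases hex : ∃ a ∈ A, single a 1 * f * single a⁻¹ 1 - f ≠ 0
  · obtain ⟨a, ha, hne⟩ := hex
    set f' : MonoidAlgebra ℚ G := single a 1 * f * single a⁻¹ 1 - f with hf'
    have hcoef : ∀ g, f'.coeff g = f.coeff (a⁻¹ * g * a) - f.coeff g := by
      intro g
      have h1 : f'.coeff g = (single a 1 * f * single a⁻¹ 1).coeff g - f.coeff g := rfl
      rw [h1, coeff_mul_single_apply, coeff_single_mul_apply, mul_one, one_mul, inv_inv,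
        mul_assoc]
    have hmem : ∃ y, f' = b * y := by
      obtain ⟨y, hy⟩ := hf
      obtain ⟨z, hz⟩ := two_sided hc hN hred ho hi (single a 1) y
      refine ⟨z * single a⁻¹ 1 - y, ?_⟩
      rw [hf', hy, mul_sub, hz, mul_assoc]
    have hlt : (cos A f').card < n := by
      rw [← hcard]
      apply Finset.card_lt_card
      rw [Finset.ssubset_iff_of_subset]
      · refine ⟨((1 : G) : G ⧸ A), mem_cos.2 ⟨1, hf1, rfl⟩, fun h => ?_⟩
        obtain ⟨g, hg, hg1⟩ := mem_cos.1 h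
        have hgA : g ∈ A := by
          rw [← QuotientGroup.eq_one_iff]
          exact hg1
        apply hg
        have h2 : a⁻¹ * g * a = g * (g⁻¹ * a⁻¹ * g⁻¹⁻¹ * a⁻¹⁻¹) := by group
        rw [hcoef, h2, hfinv.coeff (hAc _ (inv_mem hgA) _ (inv_mem ha)), sub_self]
      · intro q hq
        obtain ⟨g, hg, rfl⟩ := mem_cos.1 hq
        rw [hcoef] at hg
        by_cases h1 : f.coeff g = 0
        · rw [h1, sub_zero] at hg
          refine mem_cos.2 ⟨_, hg, ?_⟩
          have h2 : ((a : G) : G ⧸ A) = 1 := (QuotientGroup.eq_one_iff a).2 ha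
          rw [QuotientGroup.mk_mul, QuotientGroup.mk_mul, QuotientGroup.mk_inv, h2, inv_one,
            one_mul, mul_one]
        · exact mem_cos.2 ⟨g, h1, rfl⟩
    exact ih _ hlt f' hmem hne rfl
  · push Not at hex
    refine ⟨f, hf, ne_zero_iff.2 ⟨1, hf1⟩, fun g₀ hg₀ => ?_⟩
    have hcj : ∀ a ∈ A, ∀ g, f.coeff (a⁻¹ * g * a) = f.coeff g := by
      intro a ha g
      have h1 := congrArg (fun z : MonoidAlgebra ℚ G => z.coeff g) (hex a ha)
      have h2 : (single a 1 * f * single a⁻¹ 1 - f).coeff g =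
        (single a 1 * f * single a⁻¹ 1).coeff g - f.coeff g := rfl
      simp only [h2] at h1
      rw [coeff_mul_single_apply, coeff_single_mul_apply, mul_one, one_mul, inv_inv,
        ← mul_assoc] at h1
      exact sub_eq_zero.1 h1
    let M : Subgroup G :=
      { carrier := {m | m ∈ A ∧ ∀ b ∈ A, f.coeff (g₀ * m * b) = f.coeff (g₀ * b)}
        one_mem' := ⟨one_mem _, fun b _ => by rw [mul_one]⟩
        mul_mem' := by
          rintro m m' ⟨h1, h2⟩ ⟨h3, h4⟩
          refine ⟨mul_mem h1 h3, fun b hb => ?_⟩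
          rw [show g₀ * (m * m') * b = g₀ * m * (m' * b) by group, h2 _ (mul_mem h3 hb),
            ← mul_assoc, h4 b hb]
        inv_mem' := by
          rintro m ⟨h1, h2⟩
          refine ⟨inv_mem h1, fun b hb => ?_⟩
          have h3 := h2 (m⁻¹ * b) (mul_mem (inv_mem h1) hb)
          rw [show g₀ * m * (m⁻¹ * b) = g₀ * b by group] at h3
          rw [h3, mul_assoc] }
    have hNM : N ≤ M := by
      intro m hm
      refine ⟨hNA hm, fun b _ => ?_⟩
      have h1 : b⁻¹ * m * b ∈ N := by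
        have := hN.conj_mem m hm b⁻¹
        rwa [inv_inv] at this
      rw [show g₀ * m * b = g₀ * b * (b⁻¹ * m * b) by group, hfinv.coeff h1]
    have hδ : ∀ a ∈ A, g₀⁻¹ * a⁻¹ * g₀ * a ∈ M := by
      intro a ha
      refine ⟨?_, fun b hb => ?_⟩
      · have h1 := hA.conj_mem a⁻¹ (inv_mem ha) g₀⁻¹
        rw [inv_inv] at h1
        exact mul_mem h1 ha
      · have h1 := hcj a ha (g₀ * b)
        have h2 : a⁻¹ * b * a = b * (b⁻¹ * a⁻¹ * b⁻¹⁻¹ * a⁻¹⁻¹) := by group
        have h3 := hAc _ (inv_mem hb) _ (inv_mem ha)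
        have h4 : g₀ * (g₀⁻¹ * a⁻¹ * g₀ * a) * b =
            (a⁻¹ * (g₀ * b) * a) * ((a⁻¹ * b * a)⁻¹ * b) := by group
        have h5 : (a⁻¹ * b * a)⁻¹ * b ∈ N := by
          have h6 : (a⁻¹ * b * a)⁻¹ * b = a⁻¹ * b⁻¹ * a⁻¹⁻¹ * b⁻¹⁻¹ := by group
          rw [h6]
          exact hAc _ (inv_mem ha) _ (inv_mem hb)
        rw [h4, hfinv.coeff h5, h1]
    have hne : N ≠ M := by
      intro h
      apply hg₀
      refine hAs g₀ fun a ha => ?_
      have h1 : g₀⁻¹ * a⁻¹ * g₀ * a ∈ N := by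
        rw [h]
        exact hδ a ha
      have h2 := hN.conj_mem _ h1 g₀
      have h3 : g₀ * (g₀⁻¹ * a⁻¹ * g₀ * a) * g₀⁻¹ = a⁻¹ * (g₀ * a * g₀⁻¹) := by group
      rw [h3] at h2
      have h4 := hN.conj_mem _ h2 a
      rw [show a * (a⁻¹ * (g₀ * a * g₀⁻¹)) * a⁻¹ = g₀ * a * g₀⁻¹ * a⁻¹ by group] at h4
      exact h4
    by_cases hcM : c ∈ M
    · have h1 := hcM.2 1 (one_mem _)
      rw [mul_one, mul_one, ← hc, hfodd.coeff] at h1
      linarith
    · have hMn : M.Normal := normal_of_not_mem hc hcc hN hred hNM hcM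
      have h1 : (f * SS M).coeff g₀ = 0 := by
        rw [hfcrit M hMn hNM hne hcM]
        rfl
      rw [mul_SS_coeff] at h1
      have h2 : ∀ u : G, (if u ∈ M then f.coeff (g₀ * u) else 0) =
          if u ∈ M then f.coeff g₀ else 0 := by
        intro u
        split_ifs with hu
        · have h3 := hu.2 1 (one_mem _)
          rwa [mul_one, mul_one] at h3
        · rfl
      rw [Finset.sum_congr rfl fun u _ => h2 u, ← Finset.sum_filter, Finset.sum_const,
        nsmul_eq_mul] at h1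
      have h3 : ((Finset.univ.filter (· ∈ M)).card : ℚ) ≠ 0 := by
        have : (Finset.univ.filter (· ∈ M)).Nonempty :=
          ⟨1, by rw [Finset.mem_filter]; exact ⟨Finset.mem_univ _, one_mem _⟩⟩
        exact_mod_cast this.card_pos.ne'
      exact (mul_eq_zero.1 h1).resolve_left h3

theorem smallQ_of_supported {A : Subgroup G} (hcA : c ∈ A)
    (hAc : ∀ a ∈ A, ∀ b ∈ A, a * b * a⁻¹ * b⁻¹ ∈ N) {f : MonoidAlgebra ℚ G} (ho : OddEl c f)
    (hi : InvEl N f) (hne : f ≠ 0) (hs : ∀ g, g ∉ A → f.coeff g = 0) : SmallQ f := by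
  classical
  obtain ⟨D, z, hD, hz⟩ := exists_int f.coeff
  let B : A → ℤ := fun a => z a
  have hBf : ∀ a : A, ((B a : ℤ) : ℚ) = D * f.coeff a := fun a => hz a
  have hD' : (D : ℚ) ≠ 0 := by exact_mod_cast hD.ne'
  obtain ⟨n, M, h, hM, h0, hv, -, hrel⟩ := Pool.Agent.W527.Vec.small_of_comm (G := A)
    ⟨c, hcA⟩ B (fun a => by
      have h1 : ((B (⟨c, hcA⟩ * a) : ℤ) : ℚ) = ((- B a : ℤ) : ℚ) := by
        rw [hBf, Int.cast_neg, hBf]
        change D * f.coeff (c * a) = _
        rw [ho.coeff]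
        ring
      exact_mod_cast h1) (fun hB => by
      obtain ⟨g, hg⟩ := ne_zero_iff.1 hne
      have hgA : g ∈ A := by
        by_contra h1
        exact hg (hs g h1)
      have h2 := hBf ⟨g, hgA⟩
      rw [hB] at h2
      simp only [Pi.zero_apply, Int.cast_zero] at h2
      rcases mul_eq_zero.1 h2.symm with h3 | h3
      · exact hD' h3
      · exact hg h3) (fun g a b => by
      have h1 : ((B (g * (a * b * a⁻¹ * b⁻¹)) : ℤ) : ℚ) = ((B g : ℤ) : ℚ) := by
        rw [hBf, hBf]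
        change D * f.coeff ((g : G) * ((a : G) * (b : G) * (a : G)⁻¹ * (b : G)⁻¹)) = _
        rw [hi.coeff (hAc _ a.2 _ b.2)]
      exact_mod_cast h1)
  have hM' : (M : ℚ) ≠ 0 := by exact_mod_cast hM.ne'
  let y : MonoidAlgebra ℚ G := ∑ u : A, ((D : ℚ) / M * n u) • single (u : G)⁻¹ 1
  have hcoef : ∀ g, (f * y).coeff g = ∑ u : A, (D : ℚ) / M * n u * f.coeff (g * u) := by
    intro g
    change (f * ∑ u : A, ((D : ℚ) / M * n u) • single (u : G)⁻¹ 1).coeff g = _
    rw [Finset.mul_sum, coeff_sum, Finsupp.finsetSum_apply]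
    refine Finset.sum_congr rfl fun u _ => ?_
    rw [mul_smul_comm, coeff_smul_apply, coeff_mul_single_apply, mul_one, inv_inv, smul_eq_mul]
  have hA : ∀ g : A, (f * y).coeff g = h g := by
    intro g
    rw [hcoef]
    have h1 : (∑ u, (n u : ℚ) * (B (g * u) : ℚ)) = M * h g := by exact_mod_cast hrel g
    have h2 : ∀ u : A, (D : ℚ) / M * n u * f.coeff ((g : G) * u) =
        (1 / M) * ((n u : ℚ) * (B (g * u) : ℚ)) := by
      intro u
      rw [hBf]
      change _ = (1 / (M : ℚ)) * ((n u : ℚ) * (D * f.coeff ((g : G) * u)))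
      ring
    rw [Finset.sum_congr rfl fun u _ => h2 u, ← Finset.mul_sum, h1]
    field_simp
  refine ⟨y, ?_, fun g => ?_⟩
  · obtain ⟨g, hg⟩ := Function.ne_iff.1 h0
    refine ne_zero_iff.2 ⟨g, ?_⟩
    rw [hA]
    exact_mod_cast hg
  · by_cases hg : g ∈ A
    · rw [hA ⟨g, hg⟩]
      rcases hv ⟨g, hg⟩ with h1 | h1 | h1
      · exact Or.inl (by rw [h1]; norm_num)
      · exact Or.inr (Or.inl (by rw [h1]; norm_num))
      · exact Or.inr (Or.inr (by rw [h1]; norm_num))
    · left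
      rw [hcoef]
      refine Finset.sum_eq_zero fun u _ => ?_
      rw [hs _ (fun h1 => hg ((Subgroup.mul_mem_cancel_right A u.2).1 h1)), mul_zero]

theorem not_mem_of_odd (hc : ∀ g, c * g = g * c) {b : MonoidAlgebra ℚ G} (ho : OddEl c b)
    (hi : InvEl N b) (hne : b ≠ 0) : c ∉ N := by
  intro hcN
  obtain ⟨g, hg⟩ := ne_zero_iff.1 hne
  have h1 := ho.coeff g
  rw [hc, hi.coeff hcN] at h1
  apply hg
  linarith

/-- **Small elements.** -/
theorem smallQ_of_red (hc : ∀ g, c * g = g * c) (hcc : c * c = 1) (hN : N.Normal)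
    (hred : RedMod c N) {b : MonoidAlgebra ℚ G} (ho : OddEl c b) (hi : InvEl N b)
    (hne : b ≠ 0) : SmallQ b := by
  classical
  -- a maximal subgroup `M`
  have hcN := not_mem_of_odd hc ho hi hne
  have h0 : b * SS N ≠ 0 := by
    rw [hi.mul_SS]
    exact smul_ne_zero (card_ne N) hne
  obtain ⟨M, hM⟩ := (Set.toFinite {M : Subgroup G | M.Normal ∧ N ≤ M ∧ c ∉ M ∧
    b * SS M ≠ 0}).exists_maximal ⟨N, hN, le_refl _, hcN, h0⟩
  obtain ⟨⟨hMn, hNM, hcM, hMb⟩, hmax⟩ := hM
  have hredM := hred.mono hNM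
  have ho' : OddEl c (b * SS M) := ho.mul_right _
  have hi' : InvEl M (b * SS M) := inv_mul_SS b
  have hcrit : ∀ K : Subgroup G, K.Normal → M ≤ K → M ≠ K → c ∉ K → b * SS M * SS K = 0 := by
    intro K h1 h2 h3 h4
    have h5 : b * SS K = 0 := by
      by_contra h6
      exact h3 (le_antisymm h2 (hmax ⟨h1, hNM.trans h2, h4, h6⟩ h2))
    rw [mul_assoc, SS_comm h1, ← mul_assoc, h5, zero_mul]
  obtain ⟨A, hA, hMA, hAc, hAs⟩ := exists_rel hcc hMn hcM
    (fun H h1 h2 => normal_of_not_mem hc hcc hMn hredM h1 h2)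
  have hcA : c ∈ A := by
    refine hAs c fun a _ => ?_
    rw [hc a, mul_inv_cancel_right, mul_inv_cancel]
    exact one_mem _
  obtain ⟨f, ⟨y, hy⟩, hf0, hfs⟩ := exists_supported hc hcc hMn hredM ho' hi' hcrit hA hMA hAc hAs _
    (b * SS M) ⟨1, (mul_one _).symm⟩ hMb rfl
  have hsm : SmallQ f := by
    refine smallQ_of_supported hcA hAc ?_ ?_ hf0 hfs
    · rw [hy]
      exact ho'.mul_right y
    · rw [hy]
      exact hi'.mul_right hMn y
  rw [hy] at hsm
  exact hsm.of_mul.of_mul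

/-- **Small elements for sums of elements which are invariant under several subgroups.** -/
theorem smallQ_of_sum (hc : ∀ g, c * g = g * c) (hcc : c * c = 1) {K : Type*} (s : Finset K)
    (Nk : K → Subgroup G) (hN : ∀ k ∈ s, (Nk k).Normal) (hred : ∀ k ∈ s, RedMod c (Nk k)) :
    ∀ (bk : K → MonoidAlgebra ℚ G), (∀ k ∈ s, InvEl (Nk k) (bk k)) →
      OddEl c (∑ k ∈ s, bk k) → ∑ k ∈ s, bk k ≠ 0 → SmallQ (∑ k ∈ s, bk k) := by
  classical
  induction s using Finset.induction_on with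
  | empty =>
    intro bk _ _ h
    exact absurd Finset.sum_empty h
  | insert k s hk ih =>
    intro bk hinv hodd hne
    have hkn := hN k (Finset.mem_insert_self k s)
    set b := ∑ l ∈ insert k s, bk l with hb
    let z : MonoidAlgebra ℚ G := (Nat.card (Nk k) : ℚ) • 1 - SS (Nk k)
    have hzc : ∀ x : MonoidAlgebra ℚ G, x * z = z * x := by
      intro x
      change x * ((Nat.card (Nk k) : ℚ) • 1 - SS (Nk k)) =
        ((Nat.card (Nk k) : ℚ) • 1 - SS (Nk k)) * x
      rw [mul_sub, sub_mul, SS_comm hkn, mul_smul_comm, smul_mul_assoc, mul_one, one_mul]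
    have hkz : bk k * z = 0 := by
      change bk k * ((Nat.card (Nk k) : ℚ) • 1 - SS (Nk k)) = 0
      rw [mul_sub, (hinv k (Finset.mem_insert_self k s)).mul_SS, mul_smul_comm, mul_one, sub_self]
    have hbz : b * z = ∑ l ∈ s, bk l * z := by
      rw [hb, Finset.sum_insert hk, add_mul, hkz, zero_add, Finset.sum_mul]
    by_cases h0 : b * z = 0
    · have h1 : b = (Nat.card (Nk k) : ℚ)⁻¹ • (b * SS (Nk k)) := by
        have h2 : (Nat.card (Nk k) : ℚ) • b - b * SS (Nk k) = 0 := by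
          have h3 : b * z = (Nat.card (Nk k) : ℚ) • b - b * SS (Nk k) := by
            change b * ((Nat.card (Nk k) : ℚ) • 1 - SS (Nk k)) = _
            rw [mul_sub, mul_smul_comm, mul_one]
          rw [← h3, h0]
        rw [← sub_eq_zero.1 h2, smul_smul, inv_mul_cancel₀ (card_ne _), one_smul]
      have hinvb : InvEl (Nk k) b := by
        rw [h1]
        exact (inv_mul_SS b).smul _
      exact smallQ_of_red hc hcc hkn (hred k (Finset.mem_insert_self k s)) hodd hinvb hne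
    · have h1 := ih (fun l hl => hN l (Finset.mem_insert_of_mem hl))
        (fun l hl => hred l (Finset.mem_insert_of_mem hl)) (fun l => bk l * z)
        (fun l hl => (hinv l (Finset.mem_insert_of_mem hl)).mul_right
          (hN l (Finset.mem_insert_of_mem hl)) z) (by
          rw [← hbz]
          exact hodd.mul_right z) (by
          rw [← hbz]
          exact h0)
      rw [← hbz] at h1
      exact h1.of_mul

/-- From small elements to small functions. -/
theorem small_of_smallQ (hcc : c * c = 1) (B : G → ℤ) (hodd : ∀ g, B (c * g) = - B g)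
    (h : SmallQ (∑ g, (B g : ℚ) • single g (1 : ℚ))) : Pool.Agent.W537.PC.Small c B := by
  classical
  set b : MonoidAlgebra ℚ G := ∑ g, (B g : ℚ) • single g (1 : ℚ) with hb
  have hbc : ∀ g, b.coeff g = B g := by
    intro g
    rw [hb, coeff_sum, Finsupp.finsetSum_apply, Finset.sum_eq_single g]
    · simp
    · intro g' _ hg
      simp [hg]
    · intro h'
      exact absurd (Finset.mem_univ _) h'
  obtain ⟨y, hne, hval⟩ := h
  have hbo : OddEl c b := odd_of_coeff hcc fun g => by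
    rw [hbc, hbc, hodd]
    push_cast
    rfl
  obtain ⟨D, z, hD, hz⟩ := exists_int y.coeff
  have hex : ∀ g, ∃ k : ℤ, (k : ℚ) = (b * y).coeff g ∧ (k = 0 ∨ k = 1 ∨ k = -1) := by
    intro g
    rcases hval g with h1 | h1 | h1
    · exact ⟨0, by rw [h1]; norm_num, Or.inl rfl⟩
    · exact ⟨1, by rw [h1]; norm_num, Or.inr (Or.inl rfl)⟩
    · exact ⟨-1, by rw [h1]; norm_num, Or.inr (Or.inr rfl)⟩
  choose k hk hkv using hex
  refine ⟨fun u => z u⁻¹, D, k, hD, ?_, hkv, fun g => ?_, fun g => ?_⟩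
  · intro h0
    obtain ⟨g, hg⟩ := ne_zero_iff.1 hne
    apply hg
    rw [← hk, h0]
    norm_num
  · have h1 : ((k (c * g) : ℤ) : ℚ) = ((- k g : ℤ) : ℚ) := by
      rw [hk, Int.cast_neg, hk, (hbo.mul_right y).coeff]
    exact_mod_cast h1
  · have h1 : ((∑ u, z u⁻¹ * B (g * u) : ℤ) : ℚ) = ((D * k g : ℤ) : ℚ) := by
      push_cast
      rw [hk, coeff_mul_sum, Finset.mul_sum]
      refine Fintype.sum_equiv (Equiv.inv G) _ _ fun u => ?_
      rw [Equiv.inv_apply, inv_inv, hbc, hz]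
      ring
    exact_mod_cast h1

end

end Pool.Agent.H65.CM
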